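import Pool.Agent.Work.MP_e99d20_al.Lower

set_option autoImplicit false

namespace Pool.Agent.Work.MP_e99d20_al

open Subgroup
open scoped commutatorElement

variable {n : ℕ}

lemma lift_e {D D' : Type} [Group D] [Group D'] {τ : Fin (n + 1) → Wr D} {τ' : Fin (n + 1) → Wr D'}
    (h : ∀ k, (τ k).e = (τ' k).e) (w : FreeGroup (Fin (n + 1))) :
    (FreeGroup.lift τ w).e = (FreeGroup.lift τ' w).e := by
  induction w using FreeGroup.induction_on with
  | C1 => simp
  | of i => simp only [FreeGroup.lift_apply_of]; exact h i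
  | inv_of i ih => rw [map_inv, map_inv, Wr.inv_e, Wr.inv_e]; exact ih
  | mul x y hx hy => rw [map_mul, map_mul, Wr.mul_e, Wr.mul_e, hx, hy]

lemma prod_f {D : Type} [Group D] (L : List (Wr D)) (h : ∀ x ∈ L, x.e = false) :
    L.prod.e = false ∧ ∀ c, L.prod.f c = (L.map (fun x => x.f c)).prod := by
  induction L with
  | nil => exact ⟨rfl, fun c => rfl⟩
  | cons x L ih =>
    obtain ⟨h1, h2⟩ := ih (fun y hy => h y (List.mem_cons_of_mem _ hy))
    have hx := h x List.mem_cons_self
    refine ⟨by simp [hx, h1], fun c => ?_⟩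
    rw [List.prod_cons, Wr.mul_f, hx, Bool.xor_false, h2, List.map_cons, List.prod_cons]

/-- the class of a reflection -/
def ee (i : Fin (n + 1)) (w : FreeGroup (Fin (n + 1))) : Bool :=
  (FreeGroup.lift (fun k => (if k = i then ⟨true, fun _ => 1⟩ else 1 : Wr C2)) w).e

lemma triv3 {P : Type} [Group P] {x y z : P} (hx : x * x = 1) (hy : y * y = 1) (hz : z * z = 1)
    (h : x = 1 ∨ y = 1 ∨ z = 1) : ⁅(x * y) ^ 2, (x * z) ^ 2⁆ = 1 := by
  rcases h with rfl | rfl | rfl
  · rw [one_mul, sq, hy, commutatorElement_one_left]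
  · rw [mul_one, sq, hx, commutatorElement_one_left]
  · rw [mul_one, sq x, hx, commutatorElement_one_right]

/-- number of reflections of type `j` and class `c` -/
def cnt2 (i j : Fin (n + 1)) (c : Bool) (rs : List (FreeGroup (Fin (n + 1)) × Fin (n + 1))) : ℕ :=
  rs.countP (fun r => decide (r.2 = j) && decide (ee i r.1 = c))

lemma cnt2_add (i j : Fin (n + 1)) (rs : List (FreeGroup (Fin (n + 1)) × Fin (n + 1))) :
    cnt2 i j false rs + cnt2 i j true rs = cnt rs j := by
  induction rs with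
  | nil => simp [cnt2, cnt]
  | cons r rs ih =>
    have hc : cnt (r :: rs) j = cnt rs j + (if r.2 = j then 1 else 0) := by
      simp only [cnt, List.map_cons, List.count_cons, beq_iff_eq]
    rw [hc, ← ih]
    simp only [cnt2, List.countP_cons]
    by_cases h : r.2 = j
    · cases h' : ee i r.1 <;> simp [h] <;> omega
    · simp [h]

/-- test homomorphism for the classes of type `j` -/
def tt (i j : Fin (n + 1)) (k : Fin (n + 1)) : Wr C2 :=
  if k = i then ⟨true, fun _ => 1⟩ else
    if k = j then ⟨false, fun c => if c = false then Multiplicative.ofAdd 1 else 1⟩ else 1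

lemma tt_sq (i j : Fin (n + 1)) (k : Fin (n + 1)) : tt i j k * tt i j k = 1 := by
  rw [tt]
  split_ifs
  · ext c <;> simp
  · ext c
    · simp
    · cases c
      · simp only [Wr.mul_f, Bool.xor_false, if_true, Wr.one_f]; decide
      · simp
  · simp

lemma tt_e (i j : Fin (n + 1)) (w : FreeGroup (Fin (n + 1))) :
    (FreeGroup.lift (tt i j) w).e = ee i w := by
  apply lift_e
  intro k
  rw [tt]
  split_ifs <;> rfl

lemma prod_tt {i j : Fin (n + 1)}
    (rs : List (FreeGroup (Fin (n + 1)) × Fin (n + 1))) (hi : ∀ r ∈ rs, r.2 ≠ i) (c : Bool) :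
    (rs.map (RR (tt i j))).prod.f c = (Multiplicative.ofAdd 1 : C2) ^ (cnt2 i j c rs) := by
  have he : ∀ r ∈ rs, (tt i j r.2).e = false := by
    intro r hr
    rw [tt, if_neg (hi r hr)]
    split_ifs <;> rfl
  have h1 : ∀ x ∈ rs.map (RR (tt i j)), x.e = false := by
    intro x hx
    obtain ⟨r, hr, rfl⟩ := List.mem_map.mp hx
    exact Wr.conj_e _ _ (he r hr)
  rw [(prod_f _ h1).2 c, List.map_map]
  clear h1
  induction rs with
  | nil => simp [cnt2]
  | cons r rs ih =>
    rw [List.map_cons, List.prod_cons, ih (fun r hr => hi r (List.mem_cons_of_mem _ hr))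
      (fun r hr => he r (List.mem_cons_of_mem _ hr))]
    have h2 : cnt2 i j c (r :: rs) = (if r.2 = j ∧ ee i r.1 = c then 1 else 0) + cnt2 i j c rs := by
      simp only [cnt2, List.countP_cons, Bool.and_eq_true, decide_eq_true_eq]
      exact add_comm _ _
    rw [h2, pow_add]
    congr 1
    simp only [Function.comp]
    rw [RR, Wr.conj_f _ _ (he r List.mem_cons_self), mul_comm ((FreeGroup.lift (tt i j) r.1).f c),
      mul_inv_cancel_right, tt_e, tt, if_neg (hi r List.mem_cons_self)]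
    by_cases h : r.2 = j
    · rw [if_pos h]
      cases c <;> cases ee i r.1 <;> simp [h]
    · rw [if_neg h, if_neg (fun h' => h h'.1), Wr.one_f, pow_zero]

lemma missing_class {rs : List (FreeGroup (Fin (n + 1)) × Fin (n + 1))}
    (h2 : ∀ (P : Type) [Group P] (τ : Fin (n + 1) → P), gam P 4 = ⊥ → (∀ i, τ i * τ i = 1) →
        Th τ (g4 n) = (rs.map (RR τ)).prod) {i j : Fin (n + 1)} (hij : i ≠ j) (hi : cnt rs i = 0)
    (hj : cnt rs j ≤ 2) : ∃ a : Bool, ∀ r ∈ rs, r.2 = j → ee i r.1 ≠ a := by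
  have h3 := h2 (Wr C2) (tt i j) gam_WrC2 (tt_sq i j)
  have h4 : Th (tt i j) (g4 n) = 1 := by
    rw [Th_g4 (tt_sq i j)]
    apply prod_trivial
    rintro ⟨a, b, c⟩ hb
    obtain ⟨hbc, hab, hac⟩ := (Finset.mem_filter.mp (Finset.mem_toList.mp hb)).2
    apply triv3 (tt_sq _ _ _) (tt_sq _ _ _) (tt_sq _ _ _)
    have hk : ∀ k, k ≠ i → k ≠ j → tt i j k = 1 := by
      intro k h1 h2; rw [tt, if_neg h1, if_neg h2]
    by_contra hcon
    rw [not_or, not_or] at hcon
    have ha' : a = i ∨ a = j := by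
      by_contra h; rw [not_or] at h; exact hcon.1 (hk a h.1 h.2)
    have hb' : b = i ∨ b = j := by
      by_contra h; rw [not_or] at h; exact hcon.2.1 (hk b h.1 h.2)
    have hc' : c = i ∨ c = j := by
      by_contra h; rw [not_or] at h; exact hcon.2.2 (hk c h.1 h.2)
    have hbc' : b ≠ c := ne_of_lt hbc
    rcases ha' with rfl | rfl <;> rcases hb' with rfl | rfl <;> rcases hc' with rfl | rfl <;>
      simp_all
  have h5 : ∀ c, Even (cnt2 i j c rs) := by
    intro c
    apply even_of_pow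
    rw [← prod_tt rs (cnt_zero hi) c, ← h3, h4, Wr.one_f]
  have h6 := cnt2_add i j rs
  obtain ⟨a, ha⟩ : ∃ a, cnt2 i j a rs = 0 := by
    by_contra hcon
    rw [not_exists] at hcon
    obtain ⟨m, hm⟩ := h5 false
    obtain ⟨m', hm'⟩ := h5 true
    have := hcon false
    have := hcon true
    omega
  refine ⟨a, fun r hr hrj hra => ?_⟩
  rw [cnt2, List.countP_eq_zero] at ha
  apply ha r hr
  simp [hrj, hra]

/-- final test homomorphism -/
def uu (i j l : Fin (n + 1)) (a b : Bool) (k : Fin (n + 1)) : Wr D4 :=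
  if k = i then ⟨true, fun _ => 1⟩ else
    if k = j then ⟨false, fun c => if c = a then DihedralGroup.sr 0 else 1⟩ else
      if k = l then ⟨false, fun c => if c = b then DihedralGroup.sr 1 else 1⟩ else 1

lemma D4_sr (k : ZMod 4) : (DihedralGroup.sr k : D4) * DihedralGroup.sr k = 1 := by
  revert k; decide

lemma uu_sq (i j l : Fin (n + 1)) (a b : Bool) (k : Fin (n + 1)) :
    uu i j l a b k * uu i j l a b k = 1 := by
  rw [uu]
  split_ifs
  · ext c <;> simp
  · ext c
    · simp
    · simp only [Wr.mul_f, Bool.xor_false, Wr.one_f]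
      split_ifs
      · exact D4_sr 0
      · exact one_mul 1
  · ext c
    · simp
    · simp only [Wr.mul_f, Bool.xor_false, Wr.one_f]
      split_ifs
      · exact D4_sr 1
      · exact one_mul 1
  · simp

lemma uu_e (i j l : Fin (n + 1)) (a b : Bool) (w : FreeGroup (Fin (n + 1))) :
    (FreeGroup.lift (uu i j l a b) w).e = ee i w := by
  apply lift_e
  intro k
  rw [uu]
  split_ifs <;> rfl

lemma eval_triples {P : Type} [Group P] {τ : Fin (n + 1) → P} (hτ : ∀ k, τ k * τ k = 1)
    {i j l : Fin (n + 1)} (hij : i ≠ j) (hil : i ≠ l) (hjl : j < l)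
    (hk : ∀ k, k ≠ i → k ≠ j → k ≠ l → τ k = 1)
    (h1 : ⁅(τ j * τ i) ^ 2, (τ j * τ l) ^ 2⁆ = 1) (h2 : ⁅(τ l * τ i) ^ 2, (τ l * τ j) ^ 2⁆ = 1) :
    ((triples n).map (fun p => ⁅(τ p.1 * τ p.2.1) ^ 2, (τ p.1 * τ p.2.2) ^ 2⁆)).prod =
      ⁅(τ i * τ j) ^ 2, (τ i * τ l) ^ 2⁆ := by
  have h1' : ⁅(τ j * τ l) ^ 2, (τ j * τ i) ^ 2⁆ = 1 := by
    rw [← commutatorElement_inv, h1, inv_one]
  have h2' : ⁅(τ l * τ j) ^ 2, (τ l * τ i) ^ 2⁆ = 1 := by
    rw [← commutatorElement_inv, h2, inv_one]
  refine prod_single (a := (i, j, l)) (f := fun p => ⁅(τ p.1 * τ p.2.1) ^ 2, (τ p.1 * τ p.2.2) ^ 2⁆)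
    (Finset.nodup_toList _) ?_ ?_
  · exact Finset.mem_toList.mpr (Finset.mem_filter.mpr ⟨Finset.mem_univ _, hjl, hij, hil⟩)
  · rintro ⟨a, b, c⟩ hne hb
    obtain ⟨hbc, hab, hac⟩ := (Finset.mem_filter.mp (Finset.mem_toList.mp hb)).2
    simp only at hbc hab hac ⊢
    by_cases hcon : τ a = 1 ∨ τ b = 1 ∨ τ c = 1
    · exact triv3 (hτ _) (hτ _) (hτ _) hcon
    · rw [not_or, not_or] at hcon
      have ha' : a = i ∨ a = j ∨ a = l := by
        by_contra h; rw [not_or, not_or] at h; exact hcon.1 (hk a h.1 h.2.1 h.2.2)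
      have hb' : b = i ∨ b = j ∨ b = l := by
        by_contra h; rw [not_or, not_or] at h; exact hcon.2.1 (hk b h.1 h.2.1 h.2.2)
      have hc' : c = i ∨ c = j ∨ c = l := by
        by_contra h; rw [not_or, not_or] at h; exact hcon.2.2 (hk c h.1 h.2.1 h.2.2)
      have hbc' : b ≠ c := ne_of_lt hbc
      have hcb : ¬ c < b := not_lt_of_gt hbc
      rcases ha' with rfl | rfl | rfl <;> rcases hb' with rfl | rfl | rfl <;>
        rcases hc' with rfl | rfl | rfl <;>
          first
            | exact absurd rfl hab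
            | exact absurd rfl hac
            | exact absurd rfl hbc'
            | exact absurd rfl hne
            | exact absurd hjl hcb
            | exact h1
            | exact h1'
            | exact h2
            | exact h2'

theorem lower_four (hn : 3 ≤ n) (ls : List (FreeGroup (Fin n))) (hlen : ls.length = 2 * n)
    (hl : ∀ p ∈ ls, Pal p)
    (hg : (ls.prod : FreeGroup (Fin n) ⧸ gam (FreeGroup (Fin n)) 4) = g4 n) : False := by
  obtain ⟨rs, h1, h2⟩ := refl_main ls hlen hl hg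
  have heven : ∀ a, Even (cnt rs a) := by
    refine cnt_even (g := g4 n) (r := 4) (by norm_num) ?_ h2
    intro τ hτ
    rw [Th_g4 hτ, prod_trivial]
    intro b _
    rw [commutatorElement_eq_one_iff_mul_comm]
    exact mul_comm _ _
  obtain ⟨i, j, l, hij, hil, hjl, hi, hj, hl⟩ := exists_small hn heven (by rw [sum_cnt, h1])
  obtain ⟨a, ha⟩ := missing_class h2 hij hi hj
  obtain ⟨b, hb⟩ := missing_class h2 hil hi hl
  have h3 := h2 (Wr D4) (uu i j l a b) gam_WrD4 (uu_sq i j l a b)
  have he : ∀ r ∈ rs, (uu i j l a b r.2).e = false := by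
    intro r hr
    rw [uu, if_neg (cnt_zero hi r hr)]
    split_ifs <;> rfl
  have h4 : (rs.map (RR (uu i j l a b))).prod.f false = 1 := by
    have h5 : ∀ x ∈ rs.map (RR (uu i j l a b)), x.e = false := by
      intro x hx
      obtain ⟨r, hr, rfl⟩ := List.mem_map.mp hx
      exact Wr.conj_e _ _ (he r hr)
    rw [(prod_f _ h5).2 false, List.map_map]
    apply prod_trivial
    intro r hr
    simp only [Function.comp]
    rw [RR, Wr.conj_f _ _ (he r hr), uu_e, Bool.false_xor]
    have h6 : (uu i j l a b r.2).f (ee i r.1) = 1 := by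
      rw [uu, if_neg (cnt_zero hi r hr)]
      by_cases hrj : r.2 = j
      · rw [if_pos hrj]
        simp only
        rw [if_neg (ha r hr hrj)]
      · rw [if_neg hrj]
        by_cases hrl : r.2 = l
        · rw [if_pos hrl]
          simp only
          rw [if_neg (hb r hr hrl)]
        · rw [if_neg hrl, Wr.one_f]
    rw [h6, mul_one, mul_inv_cancel]
  rw [← h3, Th_g4 (uu_sq i j l a b)] at h4
  have hui : uu i j l a b i = ⟨true, fun _ => 1⟩ := by rw [uu, if_pos rfl]
  have huj : uu i j l a b j = ⟨false, fun c => if c = a then DihedralGroup.sr 0 else 1⟩ := by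
    rw [uu, if_neg hij.symm, if_pos rfl]
  have hul : uu i j l a b l = ⟨false, fun c => if c = b then DihedralGroup.sr 1 else 1⟩ := by
    rw [uu, if_neg hil.symm, if_neg hjl.symm, if_pos rfl]
  have huk : ∀ k, k ≠ i → k ≠ j → k ≠ l → uu i j l a b k = 1 := by
    intro k h1 h2 h3; rw [uu, if_neg h1, if_neg h2, if_neg h3]
  have hA : ∀ a b : Bool, ⁅((⟨false, fun c => if c = a then DihedralGroup.sr 0 else 1⟩ : Wr D4) *
      ⟨true, fun _ => 1⟩) ^ 2, ((⟨false, fun c => if c = a then DihedralGroup.sr 0 else 1⟩ : Wr D4) *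
      ⟨false, fun c => if c = b then DihedralGroup.sr 1 else 1⟩) ^ 2⁆ = 1 := by
    intro a b
    ext c
    · cases a <;> cases b <;> decide
    · cases a <;> cases b <;> cases c <;> decide
  have hB : ∀ a b : Bool, ⁅((⟨false, fun c => if c = b then DihedralGroup.sr 1 else 1⟩ : Wr D4) *
      ⟨true, fun _ => 1⟩) ^ 2, ((⟨false, fun c => if c = b then DihedralGroup.sr 1 else 1⟩ : Wr D4) *
      ⟨false, fun c => if c = a then DihedralGroup.sr 0 else 1⟩) ^ 2⁆ = 1 := by
    intro a b
    ext c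
    · cases a <;> cases b <;> decide
    · cases a <;> cases b <;> cases c <;> decide
  have hC : ∀ a b : Bool, (⁅((⟨true, fun _ => 1⟩ : Wr D4) *
      ⟨false, fun c => if c = a then DihedralGroup.sr 0 else 1⟩) ^ 2, ((⟨true, fun _ => 1⟩ : Wr D4) *
      ⟨false, fun c => if c = b then DihedralGroup.sr 1 else 1⟩) ^ 2⁆ : Wr D4).f false ≠ 1 := by
    intro a b
    cases a <;> cases b <;> decide
  have hC' : ∀ a b : Bool, (⁅((⟨true, fun _ => 1⟩ : Wr D4) *
      ⟨false, fun c => if c = b then DihedralGroup.sr 1 else 1⟩) ^ 2, ((⟨true, fun _ => 1⟩ : Wr D4) *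
      ⟨false, fun c => if c = a then DihedralGroup.sr 0 else 1⟩) ^ 2⁆ : Wr D4).f false ≠ 1 := by
    intro a b
    cases a <;> cases b <;> decide
  rcases lt_or_gt_of_ne hjl with h | h
  · rw [eval_triples (uu_sq i j l a b) hij hil h huk (by rw [hui, huj, hul]; exact hA a b)
      (by rw [hui, huj, hul]; exact hB a b), hui, huj, hul] at h4
    exact hC a b h4
  · rw [eval_triples (uu_sq i j l a b) hil hij h (fun k h1 h2 h3 => huk k h1 h3 h2)
      (by rw [hui, huj, hul]; exact hB a b) (by rw [hui, huj, hul]; exact hA a b), hui, huj, hul] at h4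
    exact hC' a b h4

end Pool.Agent.Work.MP_e99d20_al
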