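import Mathlib

set_option autoImplicit false

namespace Pool.Agent.Work.MP_e99d20_al

open Subgroup
open scoped commutatorElement

section

variable {G : Type*} [Group G]

/-- The lower central series, `gam k = γ_{k+1}`. -/
abbrev gam (G : Type*) [Group G] (k : ℕ) : Subgroup G := (⊤ : Subgroup G).lowerCentralSeries k

lemma gam_succ_le (k : ℕ) : gam G (k + 1) ≤ gam G k :=
  (⊤ : Subgroup G).lowerCentralSeries_antitone (Nat.le_succ k)

lemma gam_anti {k l : ℕ} (h : k ≤ l) : gam G l ≤ gam G k :=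
  (⊤ : Subgroup G).lowerCentralSeries_antitone h

instance gam_normal (k : ℕ) : (gam G k).Normal := inferInstance

lemma comm_mem {k : ℕ} {y : G} (hy : y ∈ gam G k) (f : G) : ⁅y, f⁆ ∈ gam G (k + 1) :=
  commutator_mem_commutator hy (mem_top f)

lemma comm_mem' {k : ℕ} {y : G} (hy : y ∈ gam G k) (f : G) : ⁅f, y⁆ ∈ gam G (k + 1) := by
  rw [← commutatorElement_inv]
  exact inv_mem (comm_mem hy f)

lemma comm_gam_one {k : ℕ} {y c : G} (hy : y ∈ gam G k) (hc : c ∈ gam G 1) :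
    ⁅y, c⁆ ∈ gam G (k + 2) := by
  -- three subgroups lemma in the quotient by `gam (k+2)`
  set N := gam G (k + 2) with hN
  let q := QuotientGroup.mk' N
  have hq : Function.Surjective q := QuotientGroup.mk'_surjective N
  have hmap : ∀ m, (gam G m).map q = gam (G ⧸ N) m := by
    intro m
    rw [map_lowerCentralSeries, Subgroup.map_top_of_surjective q hq]
  have hbot : gam (G ⧸ N) (k + 2) = ⊥ := by
    rw [← hmap, Subgroup.map_eq_bot_iff, QuotientGroup.ker_mk']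
  have h1 : ⁅⁅(⊤ : Subgroup (G ⧸ N)), gam (G ⧸ N) k⁆, (⊤ : Subgroup (G ⧸ N))⁆ = ⊥ := by
    rw [commutator_comm ⊤ (gam (G ⧸ N) k)]
    exact hbot
  have h2 : ⁅⁅gam (G ⧸ N) k, (⊤ : Subgroup (G ⧸ N))⁆, (⊤ : Subgroup (G ⧸ N))⁆ = ⊥ := hbot
  have h3 : ⁅⁅(⊤ : Subgroup (G ⧸ N)), (⊤ : Subgroup (G ⧸ N))⁆, gam (G ⧸ N) k⁆ = ⊥ :=
    commutator_commutator_eq_bot_of_rotate h1 h2
  have h4 : ⁅q c, q y⁆ ∈ ⁅⁅(⊤ : Subgroup (G ⧸ N)), (⊤ : Subgroup (G ⧸ N))⁆, gam (G ⧸ N) k⁆ := by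
    apply commutator_mem_commutator
    · have := Subgroup.mem_map_of_mem q hc
      rw [hmap] at this
      exact this
    · have := Subgroup.mem_map_of_mem q hy
      rw [hmap] at this
      exact this
  rw [h3, mem_bot, ← map_commutatorElement] at h4
  have h5 : ⁅c, y⁆ ∈ N := (QuotientGroup.eq_one_iff _).mp h4
  rw [← commutatorElement_inv]
  exact inv_mem h5

/-- `f z f⁻¹ ≡ z` modulo `gam (k+1)` for `z ∈ gam k`, phrased in a quotient. -/
lemma comm_right {N : Subgroup G} [N.Normal] {k : ℕ} (hN : gam G (k + 1) ≤ N) {z : G}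
    (hz : z ∈ gam G k) (f : G) : (z * f : G ⧸ N) = (f * z : G ⧸ N) := by
  have h : ⁅z, f⁆ ∈ N := hN (comm_mem hz f)
  have h2 : ((⁅z, f⁆ : G) : G ⧸ N) = 1 := (QuotientGroup.eq_one_iff _).mpr h
  have h3 : z * f = ⁅z, f⁆ * (f * z) := by rw [commutatorElement_def]; group
  rw [← QuotientGroup.mk_mul, h3, QuotientGroup.mk_mul, h2, one_mul, QuotientGroup.mk_mul]

lemma mk_comm_mul_left {N : Subgroup G} [N.Normal] {k : ℕ} (hN : gam G (k + 2) ≤ N) {y y' : G}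
    (hy' : y' ∈ gam G k) (f : G) :
    ((⁅y * y', f⁆ : G) : G ⧸ N) = (⁅y, f⁆ : G) * (⁅y', f⁆ : G) := by
  have h : ⁅y * y', f⁆ = (y * ⁅y', f⁆ * y⁻¹) * ⁅y, f⁆ := by
    rw [commutatorElement_def, commutatorElement_def, commutatorElement_def]; group
  have h1 : ⁅y', f⁆ ∈ gam G (k + 1) := comm_mem hy' f
  have h2 := comm_right hN h1 y
  have h3 := comm_right hN h1 ⁅y, f⁆
  rw [h, QuotientGroup.mk_mul, QuotientGroup.mk_mul, QuotientGroup.mk_mul]
  rw [← h2]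
  rw [QuotientGroup.mk_inv, mul_inv_cancel_right]
  exact h3

lemma mk_comm_mul_right {N : Subgroup G} [N.Normal] {k : ℕ} (hN : gam G (k + 2) ≤ N) {y : G}
    (hy : y ∈ gam G k) (f f' : G) :
    ((⁅y, f * f'⁆ : G) : G ⧸ N) = (⁅y, f⁆ : G) * (⁅y, f'⁆ : G) := by
  have h : ⁅y, f * f'⁆ = ⁅y, f⁆ * (f * ⁅y, f'⁆ * f⁻¹) := by
    rw [commutatorElement_def, commutatorElement_def, commutatorElement_def]; group
  have h1 : ⁅y, f'⁆ ∈ gam G (k + 1) := comm_mem hy f'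
  have h2 := comm_right hN h1 f
  rw [h, QuotientGroup.mk_mul, QuotientGroup.mk_mul, QuotientGroup.mk_mul]
  rw [← h2]
  rw [QuotientGroup.mk_inv, mul_inv_cancel_right]

lemma mk_comm_inv_left {N : Subgroup G} [N.Normal] {k : ℕ} (hN : gam G (k + 2) ≤ N) {y : G}
    (hy : y ∈ gam G k) (f : G) :
    ((⁅y⁻¹, f⁆ : G) : G ⧸ N) = ((⁅y, f⁆ : G) : G ⧸ N)⁻¹ := by
  have h := mk_comm_mul_left hN hy (y := y⁻¹) f
  rw [inv_mul_cancel, commutatorElement_one_left, QuotientGroup.mk_one] at h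
  exact eq_inv_of_mul_eq_one_left h.symm

/-- changing the right entry of a commutator by an element of `gam 1`. -/
lemma mk_comm_congr {N : Subgroup G} [N.Normal] {k : ℕ} (hN : gam G (k + 2) ≤ N) {y : G}
    (hy : y ∈ gam G k) {f f' : G} (hf : f⁻¹ * f' ∈ gam G 1) :
    ((⁅y, f'⁆ : G) : G ⧸ N) = (⁅y, f⁆ : G) := by
  have h := mk_comm_mul_right hN hy f (f⁻¹ * f')
  rw [mul_inv_cancel_left] at h
  rw [h]
  have h2 : ((⁅y, f⁻¹ * f'⁆ : G) : G ⧸ N) = 1 :=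
    (QuotientGroup.eq_one_iff _).mpr (hN (comm_gam_one hy hf))
  rw [h2, mul_one]

/-! ### The subgroup of absorbable errors -/

/-- Elements `z ∈ gam k` such that every `g ∈ S` can be replaced by some `g' ∈ S` congruent to
`g z` (and another one congruent to `g z⁻¹`) modulo `gam (k+1)`. -/
def Tsub (S : Set G) (k : ℕ) : Subgroup G where
  carrier := {z | z ∈ gam G k ∧ ∀ g ∈ S,
    (∃ g' ∈ S, (g' : G ⧸ gam G (k + 1)) = g * z) ∧ (∃ g' ∈ S, (g' : G ⧸ gam G (k + 1)) = g * (z : G ⧸ gam G (k + 1))⁻¹)}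
  mul_mem' := by
    rintro a b ⟨ha, ha'⟩ ⟨hb, hb'⟩
    refine ⟨mul_mem ha hb, fun g hg => ⟨?_, ?_⟩⟩
    · obtain ⟨g1, hg1, h1⟩ := (ha' g hg).1
      obtain ⟨g2, hg2, h2⟩ := (hb' g1 hg1).1
      exact ⟨g2, hg2, by rw [h2, h1, QuotientGroup.mk_mul, mul_assoc]⟩
    · obtain ⟨g1, hg1, h1⟩ := (hb' g hg).2
      obtain ⟨g2, hg2, h2⟩ := (ha' g1 hg1).2
      exact ⟨g2, hg2, by rw [h2, h1, QuotientGroup.mk_mul, mul_inv_rev, mul_assoc]⟩
  one_mem' := ⟨one_mem _, fun g hg => ⟨⟨g, hg, by rw [QuotientGroup.mk_one, mul_one]⟩,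
    ⟨g, hg, by rw [QuotientGroup.mk_one, inv_one, mul_one]⟩⟩⟩
  inv_mem' := by
    rintro a ⟨ha, ha'⟩
    refine ⟨inv_mem ha, fun g hg => ⟨?_, ?_⟩⟩
    · obtain ⟨g1, hg1, h1⟩ := (ha' g hg).2
      exact ⟨g1, hg1, by rw [h1, QuotientGroup.mk_inv]⟩
    · obtain ⟨g1, hg1, h1⟩ := (ha' g hg).1
      exact ⟨g1, hg1, by rw [h1, QuotientGroup.mk_inv, inv_inv]⟩

lemma gam_le_Tsub (S : Set G) (k : ℕ) : gam G (k + 1) ≤ Tsub S k := by
  intro z hz
  refine ⟨gam_succ_le k hz, fun g hg => ⟨⟨g, hg, ?_⟩, ⟨g, hg, ?_⟩⟩⟩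
  · rw [(QuotientGroup.eq_one_iff z).mpr hz, mul_one]
  · rw [(QuotientGroup.eq_one_iff z).mpr hz, inv_one, mul_one]

lemma Tsub_le_gam (S : Set G) (k : ℕ) : Tsub S k ≤ gam G k := fun _ hz => hz.1

instance Tsub_normal (S : Set G) (k : ℕ) : (Tsub S k).Normal := by
  constructor
  intro z hz g
  have h : g * z * g⁻¹ = ⁅g, z⁆ * z := by rw [commutatorElement_def]; group
  rw [h]
  exact mul_mem (gam_le_Tsub S k (comm_mem' (Tsub_le_gam S k hz) g)) hz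

/-- `{f | ∀ y ∈ gam k, ⁅y, f⁆ ∈ T}` for a normal subgroup `T`. -/
def Csub (k : ℕ) (T : Subgroup G) [hT : T.Normal] : Subgroup G where
  carrier := {f | ∀ y ∈ gam G k, ⁅y, f⁆ ∈ T}
  mul_mem' := by
    intro a b ha hb y hy
    have h : ⁅y, a * b⁆ = ⁅y, a⁆ * (a * ⁅y, b⁆ * a⁻¹) := by
      rw [commutatorElement_def, commutatorElement_def, commutatorElement_def]; group
    rw [h]
    exact mul_mem (ha y hy) (hT.conj_mem _ (hb y hy) a)
  one_mem' := by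
    intro y _
    rw [commutatorElement_one_right]
    exact one_mem _
  inv_mem' := by
    intro a ha y hy
    have h : ⁅y, a⁻¹⁆ = a⁻¹ * (⁅y, a⁆)⁻¹ * a⁻¹⁻¹ := by
      rw [commutatorElement_def, commutatorElement_def]; group
    rw [h]
    exact hT.conj_mem _ (inv_mem (ha y hy)) a⁻¹

lemma mem_Csub {k : ℕ} {T : Subgroup G} [T.Normal] {f : G} :
    f ∈ Csub k T ↔ ∀ y ∈ gam G k, ⁅y, f⁆ ∈ T := Iff.rfl

lemma gam_one_le_Csub {k : ℕ} {T : Subgroup G} [T.Normal] (hT : gam G (k + 2) ≤ T) :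
    gam G 1 ≤ Csub k T := fun _ hf _ hy => hT (comm_gam_one hy hf)

lemma gam_le_of_Csub {k : ℕ} {T : Subgroup G} [T.Normal] (h : Csub k T = ⊤) :
    gam G (k + 1) ≤ T := by
  rw [show gam G (k+1) = ⁅gam G k, ⊤⁆ from rfl, commutator_le]
  intro y hy f _
  have : f ∈ Csub k T := by rw [h]; exact mem_top f
  exact this y hy

end

end Pool.Agent.Work.MP_e99d20_al
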