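import Pool.Agent.Work.MP_e99d20_al.Lift

set_option autoImplicit false

namespace Pool.Agent.Work.MP_e99d20_al

open Subgroup
open scoped commutatorElement

section general

variable {G : Type*} [Group G]

lemma hom_gam_one {A : Type*} [CommGroup A] (f : G →* A) {c : G} (hc : c ∈ gam G 1) : f c = 1 :=
  Abelianization.commutator_subset_ker f hc

/-- `{b | ⁅a, b⁆² ∈ T}`. -/
def Ysub (T : Subgroup G) [T.Normal] (hT : gam G 2 ≤ T) (a : G) : Subgroup G where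
  carrier := {b | ⁅a, b⁆ ^ 2 ∈ T}
  mul_mem' := by
    intro b b' hb hb'
    change ⁅a, b * b'⁆ ^ 2 ∈ T
    rw [← QuotientGroup.eq_one_iff, QuotientGroup.mk_pow,
      mk_comm_mul_right (k := 0) hT (mem_top a)]
    have hc := comm_right (N := T) (k := 1) hT (comm_mem (k := 0) (mem_top a) b') ⁅a, b⁆
    have h1 : ((⁅a, b⁆ : G) : G ⧸ T) ^ 2 = 1 := by
      rw [← QuotientGroup.mk_pow]; exact (QuotientGroup.eq_one_iff _).mpr hb
    have h2 : ((⁅a, b'⁆ : G) : G ⧸ T) ^ 2 = 1 := by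
      rw [← QuotientGroup.mk_pow]; exact (QuotientGroup.eq_one_iff _).mpr hb'
    have h3 : Commute ((⁅a, b⁆ : G) : G ⧸ T) ((⁅a, b'⁆ : G) : G ⧸ T) := hc.symm
    rw [h3.mul_pow, h1, h2, one_mul]
  one_mem' := by
    change ⁅a, (1 : G)⁆ ^ 2 ∈ T
    rw [commutatorElement_one_right, one_pow]
    exact one_mem _
  inv_mem' := by
    intro b hb
    change ⁅a, b⁻¹⁆ ^ 2 ∈ T
    rw [← QuotientGroup.eq_one_iff, QuotientGroup.mk_pow,
      mk_comm_inv_right (k := 0) hT (mem_top a), inv_pow, ← QuotientGroup.mk_pow,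
      (QuotientGroup.eq_one_iff _).mpr hb, inv_one]

lemma mem_Ysub {T : Subgroup G} [T.Normal] {hT : gam G 2 ≤ T} {a b : G} :
    b ∈ Ysub T hT a ↔ ⁅a, b⁆ ^ 2 ∈ T := Iff.rfl

lemma mem_Ysub_comm {T : Subgroup G} [T.Normal] {hT : gam G 2 ≤ T} {a b : G} :
    b ∈ Ysub T hT a ↔ a ∈ Ysub T hT b := by
  rw [mem_Ysub, mem_Ysub, ← commutatorElement_inv, inv_pow, inv_mem_iff]

lemma mem_Ysub_of_sq {T : Subgroup G} [T.Normal] {hT : gam G 2 ≤ T} {a v : G}
    (h : ⁅a, v ^ 2⁆ ∈ T) : v ∈ Ysub T hT a := by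
  rw [mem_Ysub, ← QuotientGroup.eq_one_iff, QuotientGroup.mk_pow, sq,
    ← mk_comm_mul_right (k := 0) hT (mem_top a), ← sq]
  exact (QuotientGroup.eq_one_iff _).mpr h

lemma mem_Ysub_of_mem {T : Subgroup G} [T.Normal] {hT : gam G 2 ≤ T} {a v : G}
    (h : ⁅a, v⁆ ∈ T) : v ∈ Ysub T hT a := pow_mem h 2

lemma sq_mem_of_gam_one {T : Subgroup G} [T.Normal] (hT : gam G 2 ≤ T)
    (h : ∀ a, Ysub T hT a = ⊤) {c : G} (hc : c ∈ gam G 1) : c ^ 2 ∈ T := by
  rw [show gam G 1 = closure { x | ∃ p ∈ gam G 0, ∃ q ∈ (⊤ : Subgroup G), ⁅p, q⁆ = x } from rfl] at hc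
  have hmem : ∀ x ∈ closure { x | ∃ p ∈ gam G 0, ∃ q ∈ (⊤ : Subgroup G), ⁅p, q⁆ = x },
      x ∈ gam G 1 := fun x hx => hx
  induction hc using closure_induction with
  | mem x hx =>
    obtain ⟨a, _, b, _, rfl⟩ := hx
    have : b ∈ Ysub T hT a := by rw [h a]; exact mem_top b
    exact this
  | one => rw [one_pow]; exact one_mem _
  | mul x y hx' hy' hx hy =>
    rw [← QuotientGroup.eq_one_iff, QuotientGroup.mk_pow, QuotientGroup.mk_mul]
    have h3 : Commute (x : G ⧸ T) (y : G ⧸ T) :=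
      (comm_right (N := T) (k := 1) hT (hmem y hy') x).symm
    rw [h3.mul_pow, ← QuotientGroup.mk_pow, ← QuotientGroup.mk_pow,
      (QuotientGroup.eq_one_iff _).mpr hx, (QuotientGroup.eq_one_iff _).mpr hy, one_mul]
  | inv x _ hx => rw [inv_pow]; exact inv_mem hx

end general

variable {ι : Type*}

/-- `y * rv y ∈ Phi`. -/
lemma mul_rv_mem_Phi (y : FreeGroup ι) : y * rv y ∈ Phi (FreeGroup ι) := by
  have h : y * rv y = y ^ 2 * (y⁻¹ * rv y) := by group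
  rw [h]
  exact mul_mem (sq_mem_Phi y) (gam_one_le_Phi (rv_mod y))

lemma conj_Phi {x p : FreeGroup ι} (h : x⁻¹ * p ∈ Phi (FreeGroup ι)) (y : FreeGroup ι) :
    x⁻¹ * (y * p * rv y) ∈ Phi (FreeGroup ι) := by
  have h1 : x⁻¹ * (y * p * rv y) = (x⁻¹ * p) * (⁅p⁻¹, y⁆ * (y * rv y)) := by
    rw [commutatorElement_def]; group
  rw [h1]
  exact mul_mem h (mul_mem (gam_one_le_Phi (comm_mem (k := 0) (mem_top _) _)) (mul_rv_mem_Phi y))

/-- Structured lists of palindromes `p₁, p₁', p₂, p₂', …, B`. -/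
def Str (β : FreeGroup ι) : List (FreeGroup ι × FreeGroup ι) → List (FreeGroup ι) → Prop
  | [], bs => ∃ B, bs = [B] ∧ Pal B ∧ β⁻¹ * B ∈ Phi (FreeGroup ι)
  | a :: L, bs => ∃ p p' bs', bs = p :: p' :: bs' ∧ Pal p ∧ Pal p' ∧ a.1⁻¹ * p ∈ Phi (FreeGroup ι) ∧
      a.2⁻¹ * (p * p') ∈ gam (FreeGroup ι) 1 ∧ Str β L bs'

/-- Products of structured lists. -/
def SS (β : FreeGroup ι) (L : List (FreeGroup ι × FreeGroup ι)) : Set (FreeGroup ι) :=
  {g | ∃ bs, Str β L bs ∧ bs.prod = g}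

lemma SS_cons {β : FreeGroup ι} {a : FreeGroup ι × FreeGroup ι}
    {L : List (FreeGroup ι × FreeGroup ι)} {g : FreeGroup ι} :
    g ∈ SS β (a :: L) ↔ ∃ p p' m, Pal p ∧ Pal p' ∧ a.1⁻¹ * p ∈ Phi (FreeGroup ι) ∧
      a.2⁻¹ * (p * p') ∈ gam (FreeGroup ι) 1 ∧ m ∈ SS β L ∧ g = p * (p' * m) := by
  constructor
  · rintro ⟨bs, ⟨p, p', bs', rfl, h1, h2, h3, h4, h5⟩, rfl⟩
    exact ⟨p, p', bs'.prod, h1, h2, h3, h4, ⟨bs', h5, rfl⟩, by simp⟩
  · rintro ⟨p, p', m, h1, h2, h3, h4, ⟨bs', h5, rfl⟩, rfl⟩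
    exact ⟨p :: p' :: bs', ⟨p, p', bs', rfl, h1, h2, h3, h4, h5⟩, by simp⟩

lemma TSS_cons (β : FreeGroup ι) (a : FreeGroup ι × FreeGroup ι)
    (L : List (FreeGroup ι × FreeGroup ι)) (k : ℕ) :
    Tsub (SS β L) k ≤ Tsub (SS β (a :: L)) k := by
  rintro z ⟨hz, hz'⟩
  refine ⟨hz, fun g hg => ?_⟩
  obtain ⟨p, p', m, h1, h2, h3, h4, h5, rfl⟩ := SS_cons.mp hg
  obtain ⟨⟨m1, hm1, e1⟩, ⟨m2, hm2, e2⟩⟩ := hz' m h5
  refine ⟨⟨p * (p' * m1), SS_cons.mpr ⟨p, p', m1, h1, h2, h3, h4, hm1, rfl⟩, ?_⟩,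
    ⟨p * (p' * m2), SS_cons.mpr ⟨p, p', m2, h1, h2, h3, h4, hm2, rfl⟩, ?_⟩⟩
  · simp only [QuotientGroup.mk_mul] at e1 ⊢
    rw [e1, mul_assoc, mul_assoc]
  · simp only [QuotientGroup.mk_mul] at e2 ⊢
    rw [e2, mul_assoc, mul_assoc]

lemma TSS_head (β : FreeGroup ι) (a : FreeGroup ι × FreeGroup ι)
    (L : List (FreeGroup ι × FreeGroup ι)) (y : FreeGroup ι) :
    ⁅y, a.2⁆ ∈ Tsub (SS β (a :: L)) 1 := by
  have key : ∀ y : FreeGroup ι, ∀ g ∈ SS β (a :: L), ∃ g' ∈ SS β (a :: L),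
      (g' : FreeGroup ι ⧸ gam (FreeGroup ι) (1 + 1)) = g * (⁅y, a.2⁆ : FreeGroup ι) := by
    intro y g hg
    obtain ⟨p, p', m, h1, h2, h3, h4, h5, rfl⟩ := SS_cons.mp hg
    have e0 : (y * p * rv y) * ((rv y)⁻¹ * p' * y⁻¹) = ⁅y, p * p'⁆ * (p * p') := by
      rw [commutatorElement_def]; group
    refine ⟨(y * p * rv y) * (((rv y)⁻¹ * p' * y⁻¹) * m), ?_, ?_⟩
    · refine SS_cons.mpr ⟨_, _, m, h1.conj y, h2.conj' y, conj_Phi h3 y, ?_, h5, rfl⟩
      have e1 : a.2⁻¹ * ((y * p * rv y) * ((rv y)⁻¹ * p' * y⁻¹)) =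
          (a.2⁻¹ * ⁅y, p * p'⁆ * a.2⁻¹⁻¹) * (a.2⁻¹ * (p * p')) := by rw [e0]; group
      rw [e1]
      exact mul_mem ((gam_normal 1).conj_mem _ (comm_mem (k := 0) (mem_top _) _) _) h4
    · have h6 : (y * p * rv y) * (((rv y)⁻¹ * p' * y⁻¹) * m) =
          ⁅y, p * p'⁆ * (p * (p' * m)) := by rw [← mul_assoc, e0]; group
      rw [h6, QuotientGroup.mk_mul]
      have h7 : ⁅y, p * p'⁆ ∈ gam (FreeGroup ι) 1 := comm_mem (k := 0) (mem_top _) _
      have h8 := comm_right (N := gam (FreeGroup ι) (1 + 1)) le_rfl h7 (p * (p' * m))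
      rw [h8]
      congr 1
      exact mk_comm_congr (k := 0) le_rfl (mem_top _) h4
  refine ⟨comm_mem (k := 0) (mem_top _) _, fun g hg => ⟨key y g hg, ?_⟩⟩
  obtain ⟨g', hg', e⟩ := key y⁻¹ g hg
  refine ⟨g', hg', ?_⟩
  rw [e, mk_comm_inv_left (k := 0) le_rfl (mem_top _)]

lemma TSS_mem (β : FreeGroup ι) (L : List (FreeGroup ι × FreeGroup ι)) :
    ∀ a ∈ L, ∀ y : FreeGroup ι, ⁅y, a.2⁆ ∈ Tsub (SS β L) 1 := by
  induction L with
  | nil => intro a ha; simp at ha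
  | cons a L ih =>
    intro a' ha' y
    rcases List.mem_cons.mp ha' with rfl | h
    · exact TSS_head β _ L y
    · exact TSS_cons β a L 1 (ih a' h y)

/-! ### Triangular data -/

/-- Generators. -/
abbrev xx (i : ι) : FreeGroup ι := FreeGroup.of i

/-- Subgroup generated by the generators with index in `S0` or in the list. -/
def Fsub (S0 : Set ι) (js : List ι) : Subgroup (FreeGroup ι) := closure (xx '' (S0 ∪ {i | i ∈ js}))

lemma Fsub_cons (S0 : Set ι) (j : ι) (js : List ι) : Fsub S0 js ≤ Fsub S0 (j :: js) := by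
  apply Subgroup.closure_mono
  apply Set.image_mono
  intro i hi
  rcases hi with hi | hi
  · exact Or.inl hi
  · exact Or.inr (List.mem_cons_of_mem _ hi)

/-- Triangularity of the data `v`. -/
def Tri (S0 : Set ι) (o : ι → Bool) (v : ι → FreeGroup ι) : List ι → Prop
  | [] => True
  | j :: js => (o j = false → (xx j)⁻¹ * v j ∈ Fsub S0 js) ∧ Tri S0 o v js

lemma Tri_le {S0 : Set ι} {o : ι → Bool} {v : ι → FreeGroup ι} {K : Subgroup (FreeGroup ι)}
    (h0 : ∀ s ∈ S0, xx s ∈ K) : ∀ (js : List ι), Tri S0 o v js →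
    (∀ j ∈ js, o j = true → xx j ∈ K) → (∀ j ∈ js, o j = false → v j ∈ K) → Fsub S0 js ≤ K := by
  intro js
  induction js with
  | nil =>
    intro _ _ _
    rw [Fsub, closure_le]
    rintro _ ⟨i, hi, rfl⟩
    rcases hi with hi | hi
    · exact h0 i hi
    · simp at hi
  | cons j js ih =>
    intro ht h1 h2
    have ih' := ih ht.2 (fun j' hj' => h1 j' (List.mem_cons_of_mem _ hj'))
      (fun j' hj' => h2 j' (List.mem_cons_of_mem _ hj'))
    have hj : xx j ∈ K := by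
      cases ho : o j
      · have h3 := ih' (ht.1 ho)
        have h4 := h2 j List.mem_cons_self ho
        have h5 : xx j = v j * ((xx j)⁻¹ * v j)⁻¹ := by group
        rw [h5]
        exact mul_mem h4 (inv_mem h3)
      · exact h1 j List.mem_cons_self ho
    rw [Fsub, closure_le]
    rintro _ ⟨i, hi, rfl⟩
    rcases hi with hi | hi
    · exact h0 i hi
    · rcases List.mem_cons.mp hi with rfl | hi
      · exact hj
      · exact ih' (subset_closure ⟨i, Or.inr hi, rfl⟩)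

/-- The value modulo `gam 1` of the `j`-th pair product. -/
def kk (o : ι → Bool) (v : ι → FreeGroup ι) (j : ι) : FreeGroup ι :=
  if o j then xx j else (v j) ^ 2

/-- The list of data. -/
def LL (o : ι → Bool) (v : ι → FreeGroup ι) (js : List ι) : List (FreeGroup ι × FreeGroup ι) :=
  js.map (fun j => (xx j, kk o v j))

/-- The error subgroup. -/
def Dsub (o : ι → Bool) (js : List ι) : Subgroup (FreeGroup ι) :=
  normalClosure ({z | ∃ c ∈ gam (FreeGroup ι) 1, z = c ^ 2} ∪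
    {z | ∃ j ∈ js, o j = true ∧ ∃ f : FreeGroup ι, z = ⁅f, xx j⁆}) ⊔ gam (FreeGroup ι) 2

instance Dsub_normal (o : ι → Bool) (js : List ι) : (Dsub o js).Normal := by
  unfold Dsub; infer_instance

lemma gam_two_le_Dsub (o : ι → Bool) (js : List ι) : gam (FreeGroup ι) 2 ≤ Dsub o js :=
  le_sup_right

lemma sq_mem_Dsub (o : ι → Bool) (js : List ι) {c : FreeGroup ι} (hc : c ∈ gam (FreeGroup ι) 1) :
    c ^ 2 ∈ Dsub o js :=
  (le_sup_left : _ ≤ Dsub o js) (subset_normalClosure (Or.inl ⟨c, hc, rfl⟩))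

lemma comm_mem_Dsub (o : ι → Bool) (js : List ι) {j : ι} (hj : j ∈ js) (ho : o j = true)
    (f : FreeGroup ι) : ⁅f, xx j⁆ ∈ Dsub o js :=
  (le_sup_left : _ ≤ Dsub o js) (subset_normalClosure (Or.inr ⟨j, hj, ho, f, rfl⟩))

lemma Dsub_le_gam_one (o : ι → Bool) (js : List ι) : Dsub o js ≤ gam (FreeGroup ι) 1 := by
  refine sup_le ?_ (gam_succ_le 1)
  apply normalClosure_le_normal
  rintro z (⟨c, hc, rfl⟩ | ⟨j, _, _, f, rfl⟩)
  · exact pow_mem hc 2
  · exact comm_mem (k := 0) (mem_top _) _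

/-- Stage 2: errors in `Dsub` can be absorbed. -/
theorem Dsub_le_Tsub {S0 : Set ι} (hS0 : S0.Subsingleton) {o : ι → Bool} {v : ι → FreeGroup ι}
    (β : FreeGroup ι) (js : List ι) (ht : Tri S0 o v js) (htop : Fsub S0 js = ⊤) :
    Dsub o js ≤ Tsub (SS β (LL o v js)) 1 := by
  set T := Tsub (SS β (LL o v js)) 1 with hTdef
  have hT : gam (FreeGroup ι) 2 ≤ T := gam_le_Tsub _ _
  have hmem : ∀ j ∈ js, ∀ y : FreeGroup ι, ⁅y, kk o v j⁆ ∈ T := by
    intro j hj y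
    exact TSS_mem β (LL o v js) (xx j, kk o v j) (List.mem_map.mpr ⟨j, hj, rfl⟩) y
  have hx : ∀ j ∈ js, o j = true → ∀ a, xx j ∈ Ysub T hT a := by
    intro j hj ho a
    apply mem_Ysub_of_mem
    have := hmem j hj a
    rwa [kk, if_pos ho] at this
  have hv : ∀ j ∈ js, o j = false → ∀ a, v j ∈ Ysub T hT a := by
    intro j hj ho a
    apply mem_Ysub_of_sq
    have := hmem j hj a
    rwa [kk, if_neg (by simp [ho])] at this
  have hs : ∀ s ∈ S0, Ysub T hT (xx s) = ⊤ := by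
    intro s hs
    rw [eq_top_iff, ← htop]
    apply Tri_le (K := Ysub T hT (xx s)) _ js ht (fun j hj ho => hx j hj ho _)
      (fun j hj ho => hv j hj ho _)
    intro s' hs'
    have : s' = s := hS0 hs' hs
    subst this
    rw [mem_Ysub, commutatorElement_self, one_pow]
    exact one_mem _
  have hall : ∀ a, Ysub T hT a = ⊤ := by
    intro a
    rw [eq_top_iff, ← htop]
    apply Tri_le (K := Ysub T hT a) _ js ht (fun j hj ho => hx j hj ho _)
      (fun j hj ho => hv j hj ho _)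
    intro s' hs'
    rw [mem_Ysub_comm, hs s' hs']
    exact mem_top a
  refine sup_le ?_ hT
  apply normalClosure_le_normal
  rintro z (⟨c, hc, rfl⟩ | ⟨j, hj, ho, f, rfl⟩)
  · exact sq_mem_of_gam_one hT hall hc
  · have := hmem j hj f
    rwa [kk, if_pos ho] at this

end Pool.Agent.Work.MP_e99d20_al
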