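import Pool.Agent.Work.MP_e99d20_al.UpperAll

set_option autoImplicit false

namespace Pool.Agent.Work.MP_e99d20_al

open Subgroup
open scoped commutatorElement

section general

variable {G : Type*} [Group G]

/-- `{b | ⁅a, b⁆ ∈ T}` for normal `T`. -/
def Zr (T : Subgroup G) [hT : T.Normal] (a : G) : Subgroup G where
  carrier := {b | ⁅a, b⁆ ∈ T}
  mul_mem' := by
    intro b b' hb hb'
    change ⁅a, b * b'⁆ ∈ T
    have h : ⁅a, b * b'⁆ = ⁅a, b⁆ * (b * ⁅a, b'⁆ * b⁻¹) := by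
      rw [commutatorElement_def, commutatorElement_def, commutatorElement_def]; group
    rw [h]
    exact mul_mem hb (hT.conj_mem _ hb' b)
  one_mem' := by
    change ⁅a, (1 : G)⁆ ∈ T
    rw [commutatorElement_one_right]
    exact one_mem _
  inv_mem' := by
    intro b hb
    change ⁅a, b⁻¹⁆ ∈ T
    have h : ⁅a, b⁻¹⁆ = b⁻¹ * (⁅a, b⁆)⁻¹ * b⁻¹⁻¹ := by
      rw [commutatorElement_def, commutatorElement_def]; group
    rw [h]
    exact hT.conj_mem _ (inv_mem hb) b⁻¹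

lemma mem_Zr {T : Subgroup G} [T.Normal] {a b : G} : b ∈ Zr T a ↔ ⁅a, b⁆ ∈ T := Iff.rfl

lemma mem_Zr_comm {T : Subgroup G} [T.Normal] {a b : G} : b ∈ Zr T a ↔ a ∈ Zr T b := by
  rw [mem_Zr, mem_Zr, ← commutatorElement_inv, inv_mem_iff]

lemma gam_one_le_of_Zr {N : Subgroup G} [N.Normal] (h : ∀ a, Zr N a = ⊤) : gam G 1 ≤ N := by
  rw [show gam G 1 = ⁅(⊤ : Subgroup G), ⊤⁆ from rfl, commutator_le]
  intro a _ b _
  have : b ∈ Zr N a := by rw [h a]; exact mem_top b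
  exact this

/-- Three subgroups lemma, elementwise form. -/
lemma three {T : Subgroup G} [T.Normal] {A : Subgroup G}
    (h : ∀ y ∈ gam G 1, ∀ f ∈ A, ⁅y, f⁆ ∈ T) {a b : G} (ha : a ∈ A) (hb : b ∈ A) (c : G) :
    ⁅⁅a, b⁆, c⁆ ∈ T := by
  let q := QuotientGroup.mk' T
  have hq : Function.Surjective q := QuotientGroup.mk'_surjective T
  have key : ∀ y ∈ ⁅(⊤ : Subgroup (G ⧸ T)), (⊤ : Subgroup (G ⧸ T))⁆, ∀ f ∈ A.map q, ⁅y, f⁆ = 1 := by
    intro y hy f hf
    have hmap : (gam G 1).map q = ⁅(⊤ : Subgroup (G ⧸ T)), (⊤ : Subgroup (G ⧸ T))⁆ := by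
      rw [map_lowerCentralSeries, Subgroup.map_top_of_surjective q hq]
      rfl
    rw [← hmap] at hy
    obtain ⟨y', hy', rfl⟩ := hy
    obtain ⟨f', hf', rfl⟩ := hf
    rw [← map_commutatorElement]
    exact (QuotientGroup.eq_one_iff _).mpr (h y' hy' f' hf')
  have h1 : ⁅⁅A.map q, (⊤ : Subgroup (G ⧸ T))⁆, A.map q⁆ = ⊥ := by
    rw [eq_bot_iff, commutator_le]
    intro y hy f hf
    rw [mem_bot]
    exact key y (commutator_mono le_top le_top hy) f hf
  have h2 : ⁅⁅(⊤ : Subgroup (G ⧸ T)), A.map q⁆, A.map q⁆ = ⊥ := by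
    rw [eq_bot_iff, commutator_le]
    intro y hy f hf
    rw [mem_bot]
    exact key y (commutator_mono le_top le_top hy) f hf
  have h3 : ⁅⁅A.map q, A.map q⁆, (⊤ : Subgroup (G ⧸ T))⁆ = ⊥ :=
    commutator_commutator_eq_bot_of_rotate h1 h2
  have h4 : ⁅⁅q a, q b⁆, q c⁆ ∈ ⁅⁅A.map q, A.map q⁆, (⊤ : Subgroup (G ⧸ T))⁆ :=
    commutator_mem_commutator
      (commutator_mem_commutator (mem_map_of_mem q ha) (mem_map_of_mem q hb)) (mem_top _)
  rw [h3, mem_bot, ← map_commutatorElement, ← map_commutatorElement] at h4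
  exact (QuotientGroup.eq_one_iff _).mp h4

end general

variable {ι : Type*}

lemma Csub_eq_top {k : ℕ} {T : Subgroup (FreeGroup ι)} [T.Normal]
    (h : ∀ i, xx i ∈ Csub k T) : Csub k T = ⊤ := by
  rw [eq_top_iff]
  intro w hw
  clear hw
  induction w using FreeGroup.induction_on with
  | C1 => exact one_mem _
  | of i => exact h i
  | inv_of i ih => exact inv_mem ih
  | mul x y hx hy => exact mul_mem hx hy

lemma top_of_gens {K : Subgroup (FreeGroup ι)} (h : ∀ i, xx i ∈ K) : K = ⊤ := by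
  rw [eq_top_iff]
  intro w hw
  clear hw
  induction w using FreeGroup.induction_on with
  | C1 => exact one_mem _
  | of i => exact h i
  | inv_of i ih => exact inv_mem ih
  | mul x y hx hy => exact mul_mem hx hy

/-- The extra generator. -/
lemma xs_mem {T : Subgroup (FreeGroup ι)} [hTn : T.Normal] (hT : gam (FreeGroup ι) 3 ≤ T) (s : ι)
    (hC : ∀ j, j ≠ s → xx j ∈ Csub 1 T) (hrv : ∀ y ∈ gam (FreeGroup ι) 1, y * rv y ∈ T) :
    xx s ∈ Csub 1 T := by
  -- the subgroup of elements of `gam 1` commuting with `x_s` modulo `T`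
  let N' : Subgroup (FreeGroup ι) := gam (FreeGroup ι) 1 ⊓ Zr T (xx s)
  have hN : N'.Normal := by
    constructor
    intro c hc g
    have h1 : g * c * g⁻¹ = ⁅g, c⁆ * c := by rw [commutatorElement_def]; group
    rw [h1]
    refine mul_mem ?_ hc
    have h2 : ⁅g, c⁆ ∈ gam (FreeGroup ι) 2 := comm_mem' hc.1 g
    refine ⟨gam_succ_le 1 h2, ?_⟩
    exact hT (comm_mem' h2 (xx s))
  have hgen : ∀ i j : ι, (⁅(xx i : FreeGroup ι), xx j⁆ : FreeGroup ι) ∈ N' := by
    have hsj : ∀ j : ι, j ≠ s → (⁅(xx s : FreeGroup ι), xx j⁆ : FreeGroup ι) ∈ N' := by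
      intro j hj
      have hy : ⁅xx s, xx j⁆ ∈ gam (FreeGroup ι) 1 := comm_mem (k := 0) (mem_top _) _
      refine ⟨hy, ?_⟩
      change ⁅xx s, xx j⁆ ∈ Zr T (xx s)
      rw [mem_Zr_comm]
      have h1 := hrv _ hy
      rw [Pal.comm_rv (Pal.of s) (Pal.of j)] at h1
      have h2 : (xx j * xx s)⁻¹ ∈ Zr T ⁅xx s, xx j⁆ := h1
      have h3 : xx j ∈ Zr T ⁅xx s, xx j⁆ := hC j hj _ hy
      have h4 : (xx j)⁻¹ * ((xx j * xx s)⁻¹)⁻¹ = xx s := by group
      have h5 := mul_mem (inv_mem h3) (inv_mem h2)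
      rwa [h4] at h5
    intro i j
    by_cases hi : i = s
    · subst hi
      by_cases hj : j = i
      · subst hj; rw [commutatorElement_self]; exact one_mem _
      · exact hsj j hj
    · by_cases hj : j = s
      · subst hj
        rw [← commutatorElement_inv]
        exact inv_mem (hsj i hi)
      · refine ⟨comm_mem (k := 0) (mem_top _) _, ?_⟩
        change ⁅xx i, xx j⁆ ∈ Zr T (xx s)
        rw [mem_Zr_comm]
        exact three (A := Csub 1 T) (fun y hy f hf => hf y hy) (hC i hi) (hC j hj) (xx s)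
  have hle : gam (FreeGroup ι) 1 ≤ N' := by
    apply gam_one_le_of_Zr
    have h1 : ∀ i, Zr N' (xx i) = ⊤ := fun i => top_of_gens (fun j => hgen i j)
    intro a
    apply top_of_gens
    intro j
    rw [mem_Zr_comm, h1 j]
    exact mem_top a
  intro y hy
  have h2 : y ∈ Zr T (xx s) := (hle hy).2
  rw [mem_Zr_comm] at h2
  exact h2

/-- Level three moves. -/
lemma entry_head (b : FreeGroup ι) (bs : List (FreeGroup ι)) {y : FreeGroup ι}
    (hy : y ∈ gam (FreeGroup ι) 1) :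
    ⁅y, b⁆ * (y * rv y) ∈ Tsub (SL (b :: bs)) 2 := by
  have hyy : ∀ y ∈ gam (FreeGroup ι) 1, y * rv y ∈ gam (FreeGroup ι) 2 := fun y hy => rv_gam_one' hy
  have key : ∀ y ∈ gam (FreeGroup ι) 1, ∀ g ∈ SL (b :: bs), ∃ g' ∈ SL (b :: bs),
      (g' : FreeGroup ι ⧸ gam (FreeGroup ι) (2 + 1)) = g * ((⁅y, b⁆ * (y * rv y) : FreeGroup ι) : FreeGroup ι ⧸ gam (FreeGroup ι) (2 + 1)) := by
    intro y hy g hg
    obtain ⟨p, m, hp, hm, rfl⟩ := SL_cons.mp hg
    refine ⟨(y * p * rv y) * m, SL_cons.mpr ⟨_, _, hp.conj hy, hm, rfl⟩, ?_⟩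
    have h1 : (y * p * rv y) * m = ⁅y, p⁆ * (p * ((y * rv y) * m)) := by
      rw [commutatorElement_def]; group
    have h2 := comm_right (N := gam (FreeGroup ι) (2 + 1)) le_rfl (hyy y hy) m
    have h3 := comm_right (N := gam (FreeGroup ι) (2 + 1)) le_rfl (comm_mem hy p) (p * (m * (y * rv y)))
    have h4 : ((⁅y, p⁆ : FreeGroup ι) : FreeGroup ι ⧸ gam (FreeGroup ι) (2 + 1)) = (⁅y, b⁆ : FreeGroup ι) :=
      mk_comm_congr (k := 1) le_rfl hy hp.2
    have h5 := comm_right (N := gam (FreeGroup ι) (2 + 1)) le_rfl (hyy y hy) (⁅y, b⁆)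
    rw [h1]
    simp only [QuotientGroup.mk_mul] at h2 h3 h5 ⊢
    rw [h2, h3, h4]
    simp only [mul_assoc] at h5 ⊢
    rw [← h5]
  refine ⟨mul_mem (comm_mem hy b) (hyy y hy), fun g hg => ⟨key y hy g hg, ?_⟩⟩
  obtain ⟨g', hg', e⟩ := key y⁻¹ (inv_mem hy) g hg
  refine ⟨g', hg', ?_⟩
  rw [e]
  congr 1
  have h6 : y⁻¹ * rv y⁻¹ = y⁻¹ * ((y * rv y)⁻¹ * y) := by rw [rv_inv]; group
  have h7 := comm_right (N := gam (FreeGroup ι) (2 + 1)) le_rfl (inv_mem (hyy y hy)) y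
  have h8 := comm_right (N := gam (FreeGroup ι) (2 + 1)) le_rfl (comm_mem hy b) (y * rv y)
  rw [QuotientGroup.mk_mul, mk_comm_inv_left (k := 1) le_rfl hy, h6, QuotientGroup.mk_mul,
    QuotientGroup.mk_mul, h7, QuotientGroup.mk_inv, QuotientGroup.mk_inv, inv_mul_cancel_left,
    ← mul_inv_rev, ← QuotientGroup.mk_mul]
  congr 1
  rw [QuotientGroup.mk_mul]
  exact h8.symm

lemma entry_mem (bs : List (FreeGroup ι)) {y : FreeGroup ι} (hy : y ∈ gam (FreeGroup ι) 1) :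
    ∀ b ∈ bs, ⁅y, b⁆ * (y * rv y) ∈ Tsub (SL bs) 2 := by
  induction bs with
  | nil => intro b hb; simp at hb
  | cons b bs ih =>
    intro b' hb'
    rcases List.mem_cons.mp hb' with rfl | h
    · exact entry_head _ bs hy
    · exact Tsub_cons _ _ _ (ih b' h)

lemma str_fst {β : FreeGroup ι} {K : Subgroup (FreeGroup ι)} (hK : Phi (FreeGroup ι) ≤ K) :
    ∀ {L : List (FreeGroup ι × FreeGroup ι)} {bs : List (FreeGroup ι)}, Str β L bs →
    (∀ b ∈ bs, b ∈ K) → ∀ a ∈ L, a.1 ∈ K := by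
  intro L
  induction L with
  | nil => intro bs _ _ a ha; simp at ha
  | cons a L ih =>
    intro bs hs hb a' ha'
    obtain ⟨p, p', bs', rfl, h1, h2, h3, h4, h5⟩ := hs
    rcases List.mem_cons.mp ha' with rfl | h
    · have h6 : p ∈ K := hb p List.mem_cons_self
      have : a'.1 = p * (a'.1⁻¹ * p)⁻¹ := by group
      rw [this]
      exact mul_mem h6 (inv_mem (hK h3))
    · exact ih h5 (fun b hb' => hb b (List.mem_cons_of_mem _ (List.mem_cons_of_mem _ hb'))) a' h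

theorem level3 {s : ι} {o : ι → Bool} {v : ι → FreeGroup ι} {js : List ι}
    (hjs : ∀ j, j ≠ s → j ∈ js) {β : FreeGroup ι} {bs : List (FreeGroup ι)}
    (hs : Str β (LL o v js) bs) (h0 : ∃ b ∈ bs, b ∈ Phi (FreeGroup ι)) :
    gam (FreeGroup ι) 2 ≤ Tsub (SL bs) 2 := by
  set T := Tsub (SL bs) 2 with hTdef
  have hT : gam (FreeGroup ι) 3 ≤ T := gam_le_Tsub _ _
  have hsq : ∀ c ∈ gam (FreeGroup ι) 2, c ^ 2 ∈ T := by
    intro c hc
    obtain ⟨b, bs', rfl⟩ := str_ne_nil hs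
    have h1 := entry_mem (b :: bs') (gam_succ_le 1 hc) b List.mem_cons_self
    have h2 : ⁅c, b⁆ ∈ T := hT (comm_mem hc b)
    have h3 : c * rv c ∈ T := by
      have := mul_mem (inv_mem h2) h1
      rwa [inv_mul_cancel_left] at this
    have h4 : c ^ 2 = (c * rv c) * ((rv c)⁻¹ * c) := by rw [sq]; group
    rw [h4]
    refine mul_mem h3 (hT ?_)
    exact QuotientGroup.eq.mp (rv_gam_two hc)
  have hPhi : Phi (FreeGroup ι) ≤ Csub 1 T := by
    apply Phi_le (gam_one_le_Csub hT)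
    intro f y hy
    have h1 : ((⁅y, f ^ 2⁆ : FreeGroup ι) : FreeGroup ι ⧸ T) = 1 := by
      rw [sq, mk_comm_mul_right (k := 1) hT hy, ← sq, ← QuotientGroup.mk_pow]
      exact (QuotientGroup.eq_one_iff _).mpr (hsq _ (comm_mem hy f))
    exact (QuotientGroup.eq_one_iff _).mp h1
  obtain ⟨b0, hb0, hb0'⟩ := h0
  have hrv : ∀ y ∈ gam (FreeGroup ι) 1, y * rv y ∈ T := by
    intro y hy
    have h1 := entry_mem bs hy b0 hb0
    have h2 : ⁅y, b0⁆ ∈ T := hPhi hb0' y hy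
    have := mul_mem (inv_mem h2) h1
    rwa [inv_mul_cancel_left] at this
  have hb : ∀ b ∈ bs, b ∈ Csub 1 T := by
    intro b hb y hy
    have h1 := entry_mem bs hy b hb
    have := mul_mem h1 (inv_mem (hrv y hy))
    rwa [mul_inv_cancel_right] at this
  have hx := str_fst hPhi hs hb
  have hxj : ∀ j, j ≠ s → xx j ∈ Csub 1 T := by
    intro j hj
    exact hx (xx j, kk o v j) (List.mem_map.mpr ⟨j, hjs j hj, rfl⟩)
  apply gam_le_of_Csub
  apply Csub_eq_top
  intro i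
  by_cases hi : i = s
  · subst hi
    exact xs_mem hT i hxj hrv
  · exact hxj i hi

end Pool.Agent.Work.MP_e99d20_al
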