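import Pool.Agent.Work.MP_e99d20_al.Rev

set_option autoImplicit false

namespace Pool.Agent.Work.MP_e99d20_al

open Subgroup
open scoped commutatorElement

variable {ι : Type*}

/-- `p` is a palindrome with the same abelianisation as `b`. -/
def Cong (b p : FreeGroup ι) : Prop := Pal p ∧ b⁻¹ * p ∈ gam (FreeGroup ι) 1

/-- Products of palindromes with prescribed abelianisations. -/
def SL (bs : List (FreeGroup ι)) : Set (FreeGroup ι) :=
  {g | ∃ l : List (FreeGroup ι), List.Forall₂ Cong bs l ∧ l.prod = g}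

lemma SL_cons {b : FreeGroup ι} {bs : List (FreeGroup ι)} {g : FreeGroup ι} :
    g ∈ SL (b :: bs) ↔ ∃ p m, Cong b p ∧ m ∈ SL bs ∧ g = p * m := by
  constructor
  · rintro ⟨l, hl, rfl⟩
    cases hl with
    | cons h1 h2 => exact ⟨_, _, h1, ⟨_, h2, rfl⟩, by simp⟩
  · rintro ⟨p, m, h1, ⟨l, h2, rfl⟩, rfl⟩
    exact ⟨p :: l, List.Forall₂.cons h1 h2, by simp⟩

lemma Tsub_cons (b : FreeGroup ι) (bs : List (FreeGroup ι)) (k : ℕ) :
    Tsub (SL bs) k ≤ Tsub (SL (b :: bs)) k := by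
  rintro z ⟨hz, hz'⟩
  refine ⟨hz, fun g hg => ?_⟩
  obtain ⟨p, m, h1, h2, rfl⟩ := SL_cons.mp hg
  obtain ⟨⟨m1, hm1, e1⟩, ⟨m2, hm2, e2⟩⟩ := hz' m h2
  refine ⟨⟨p * m1, SL_cons.mpr ⟨p, m1, h1, hm1, rfl⟩, ?_⟩,
    ⟨p * m2, SL_cons.mpr ⟨p, m2, h1, hm2, rfl⟩, ?_⟩⟩
  · rw [QuotientGroup.mk_mul, e1, QuotientGroup.mk_mul, mul_assoc]
  · rw [QuotientGroup.mk_mul, e2, QuotientGroup.mk_mul, mul_assoc]

/-- Products of adjacent entries. -/
def adj : List (FreeGroup ι) → Set (FreeGroup ι)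
  | [] => ∅
  | [_] => ∅
  | b1 :: b2 :: bs => {b1 * b2} ∪ adj (b2 :: bs)

lemma Cong.conj {b p y : FreeGroup ι} (h : Cong b p) (hy : y ∈ gam (FreeGroup ι) 1) :
    Cong b (y * p * rv y) := by
  refine ⟨h.1.conj y, ?_⟩
  have h1 : b⁻¹ * (y * p * rv y) = (b⁻¹ * y * b⁻¹⁻¹) * (b⁻¹ * p) * rv y := by group
  rw [h1]
  exact mul_mem (mul_mem ((gam_normal 1).conj_mem y hy b⁻¹) h.2) (rv_gam hy)

lemma Cong.conj' {b p y : FreeGroup ι} (h : Cong b p) (hy : y ∈ gam (FreeGroup ι) 1) :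
    Cong b ((rv y)⁻¹ * p * y⁻¹) := by
  have := h.conj (inv_mem (rv_gam hy))
  rwa [rv_inv, rv_rv] at this

lemma adj_head (b1 b2 : FreeGroup ι) (bs : List (FreeGroup ι)) {k : ℕ} (hk : 1 ≤ k)
    {y : FreeGroup ι} (hy : y ∈ gam (FreeGroup ι) k) :
    ⁅y, b1 * b2⁆ ∈ Tsub (SL (b1 :: b2 :: bs)) (k + 1) := by
  have key : ∀ y ∈ gam (FreeGroup ι) k, ∀ g ∈ SL (b1 :: b2 :: bs), ∃ g' ∈ SL (b1 :: b2 :: bs),
      (g' : FreeGroup ι ⧸ gam (FreeGroup ι) (k + 1 + 1)) = g * (⁅y, b1 * b2⁆ : FreeGroup ι) := by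
    intro y hy g hg
    obtain ⟨p, m, hp, hm, rfl⟩ := SL_cons.mp hg
    obtain ⟨q, m', hq, hm', rfl⟩ := SL_cons.mp hm
    have hy1 : y ∈ gam (FreeGroup ι) 1 := gam_anti hk hy
    refine ⟨(y * p * rv y) * (((rv y)⁻¹ * q * y⁻¹) * m'), ?_, ?_⟩
    · exact SL_cons.mpr ⟨_, _, hp.conj hy1, SL_cons.mpr ⟨_, _, hq.conj' hy1, hm', rfl⟩, rfl⟩
    · have h1 : (y * p * rv y) * (((rv y)⁻¹ * q * y⁻¹) * m') =
          ⁅y, p * q⁆ * (p * (q * m')) := by rw [commutatorElement_def]; group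
      rw [h1, QuotientGroup.mk_mul]
      have h2 : ⁅y, p * q⁆ ∈ gam (FreeGroup ι) (k + 1) := comm_mem hy _
      have h3 := comm_right (N := gam (FreeGroup ι) (k + 1 + 1)) le_rfl h2 (p * (q * m'))
      rw [h3]
      congr 1
      apply mk_comm_congr (k := k) le_rfl hy
      have h4 : (b1 * b2)⁻¹ * (p * q) = (b2⁻¹ * (b1⁻¹ * p) * b2⁻¹⁻¹) * (b2⁻¹ * q) := by group
      rw [h4]
      exact mul_mem ((gam_normal 1).conj_mem _ hp.2 b2⁻¹) hq.2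
  refine ⟨comm_mem hy _, fun g hg => ⟨key y hy g hg, ?_⟩⟩
  obtain ⟨g', hg', e⟩ := key y⁻¹ (inv_mem hy) g hg
  refine ⟨g', hg', ?_⟩
  rw [e, mk_comm_inv_left (k := k) le_rfl hy]

lemma adj_mem (bs : List (FreeGroup ι)) {k : ℕ} (hk : 1 ≤ k) {y : FreeGroup ι}
    (hy : y ∈ gam (FreeGroup ι) k) : ∀ h ∈ adj bs, ⁅y, h⁆ ∈ Tsub (SL bs) (k + 1) := by
  induction bs with
  | nil => intro h hh; exact absurd hh (by simp [adj])
  | cons b1 bs ih =>
    cases bs with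
    | nil => intro h hh; exact absurd hh (by simp [adj])
    | cons b2 bs =>
      intro h hh
      rcases hh with hh | hh
      · rw [Set.mem_singleton_iff] at hh
        subst hh
        exact adj_head b1 b2 bs hk hy
      · exact Tsub_cons _ _ _ (ih h hh)

/-- The adjacent sums generate the abelianisation. -/
def Gen (bs : List (FreeGroup ι)) : Prop :=
  ∀ K : Subgroup (FreeGroup ι), gam (FreeGroup ι) 1 ≤ K → (∀ h ∈ adj bs, h ∈ K) → K = ⊤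

lemma lift_step {bs : List (FreeGroup ι)} (hg : Gen bs) {k : ℕ} (hk : 1 ≤ k) :
    gam (FreeGroup ι) (k + 1) ≤ Tsub (SL bs) (k + 1) := by
  apply gam_le_of_Csub
  apply hg
  · exact gam_one_le_Csub (gam_le_Tsub _ _)
  · intro h hh y hy
    exact adj_mem bs hk hy h hh

theorem lift_all {bs : List (FreeGroup ι)} (hgen : Gen bs) {g : FreeGroup ι}
    (h2 : ∃ g2 ∈ SL bs, (g2 : FreeGroup ι ⧸ gam (FreeGroup ι) 2) = g) :
    ∀ r, ∃ g' ∈ SL bs, (g' : FreeGroup ι ⧸ gam (FreeGroup ι) (r + 2)) = g := by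
  intro r
  induction r with
  | zero => exact h2
  | succ r ih =>
    obtain ⟨g', hg', e⟩ := ih
    have hz : g'⁻¹ * g ∈ gam (FreeGroup ι) (r + 2) := QuotientGroup.eq.mp e
    have hz' := lift_step hgen (k := r + 1) (by omega) hz
    obtain ⟨g'', hg'', e'⟩ := (hz'.2 g' hg').1
    refine ⟨g'', hg'', ?_⟩
    have : (g'' : FreeGroup ι ⧸ gam (FreeGroup ι) (r + 1 + 1 + 1)) = g := by
      rw [e', ← QuotientGroup.mk_mul, mul_inv_cancel_left]
    exact this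

end Pool.Agent.Work.MP_e99d20_al
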