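import Pool.Agent.Work.MP_e99d20_al.Rev

set_option autoImplicit false

namespace Pool.Agent.Work.MP_e99d20_al

open Subgroup
open scoped commutatorElement

variable {n : ℕ}

/-- The homomorphism `x_i ↦ τ₀ τ_{i+1}`. -/
def Th {P : Type} [Group P] (τ : Fin (n + 1) → P) : FreeGroup (Fin n) →* P :=
  FreeGroup.lift (fun i => τ 0 * τ i.succ)

/-- `X₀ = 1`, `X_{i+1} = x_i`. -/
def X (a : Fin (n + 1)) : FreeGroup (Fin n) := Fin.cases 1 (fun i => FreeGroup.of i) a

/-- The conjugate of `τ j` by `w`. -/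
def RR {P : Type} [Group P] (τ : Fin (n + 1) → P) (r : FreeGroup (Fin (n + 1)) × Fin (n + 1)) : P :=
  FreeGroup.lift τ r.1 * τ r.2 * (FreeGroup.lift τ r.1)⁻¹

lemma Th_X {P : Type} [Group P] {τ : Fin (n + 1) → P} (hτ : ∀ i, τ i * τ i = 1)
    (a : Fin (n + 1)) : Th τ (X a) = τ 0 * τ a := by
  refine Fin.cases ?_ (fun i => ?_) a
  · rw [X, Fin.cases_zero, map_one, hτ]
  · rw [X, Fin.cases_succ, Th, FreeGroup.lift_apply_of]

lemma Th_XX {P : Type} [Group P] {τ : Fin (n + 1) → P} (hτ : ∀ i, τ i * τ i = 1)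
    (a b : Fin (n + 1)) : Th τ ((X a)⁻¹ * X b) = τ a * τ b := by
  rw [map_mul, map_inv, Th_X hτ, Th_X hτ, mul_inv_rev, mul_assoc, inv_mul_cancel_left,
    inv_eq_of_mul_eq_one_left (hτ a)]

lemma Th_letter {P : Type} [Group P] {τ : Fin (n + 1) → P} (hτ : ∀ i, τ i * τ i = 1)
    (a : Fin n × Bool) : ∃ x : P, x = Th τ (FreeGroup.mk [a]) ∧ τ 0 * x * τ 0 = x⁻¹ := by
  refine ⟨_, rfl, ?_⟩
  have h0 : (τ 0)⁻¹ = τ 0 := inv_eq_of_mul_eq_one_left (hτ 0)
  obtain ⟨i, b⟩ := a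
  have hi : (τ i.succ)⁻¹ = τ i.succ := inv_eq_of_mul_eq_one_left (hτ _)
  have h1 : Th τ (FreeGroup.of i) = τ 0 * τ i.succ := by rw [Th, FreeGroup.lift_apply_of]
  cases b
  · have : (FreeGroup.mk [(i, false)] : FreeGroup (Fin n)) = (FreeGroup.of i)⁻¹ := by
      rw [FreeGroup.of, FreeGroup.inv_mk]; rfl
    rw [this, map_inv, h1, mul_inv_rev, h0, hi, mul_inv_rev, h0, hi, mul_assoc, mul_assoc, hτ,
      mul_one]
  · have : (FreeGroup.mk [(i, true)] : FreeGroup (Fin n)) = FreeGroup.of i := rfl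
    rw [this, h1, mul_inv_rev, h0, hi, ← mul_assoc, hτ, one_mul]

lemma pal_refl_word (L : List (Fin n × Bool)) (hL : L.Palindrome) :
    ∃ r : FreeGroup (Fin (n + 1)) × Fin (n + 1), ∀ (P : Type) [Group P] (τ : Fin (n + 1) → P),
      (∀ i, τ i * τ i = 1) → Th τ (FreeGroup.mk L) * τ 0 = RR τ r := by
  induction hL with
  | nil =>
    refine ⟨(1, 0), fun P _ τ hτ => ?_⟩
    rw [← FreeGroup.one_eq_mk, map_one, RR]
    simp
  | singleton a =>
    obtain ⟨i, b⟩ := a
    cases b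
    · refine ⟨(1, i.succ), fun P _ τ hτ => ?_⟩
      have : (FreeGroup.mk [(i, false)] : FreeGroup (Fin n)) = (FreeGroup.of i)⁻¹ := by
        rw [FreeGroup.of, FreeGroup.inv_mk]; rfl
      have hi : (τ i.succ)⁻¹ = τ i.succ := inv_eq_of_mul_eq_one_left (hτ _)
      rw [this, map_inv, RR, Th, FreeGroup.lift_apply_of]
      simp [hi]
    · refine ⟨(FreeGroup.of 0, i.succ), fun P _ τ hτ => ?_⟩
      have : (FreeGroup.mk [(i, true)] : FreeGroup (Fin n)) = FreeGroup.of i := rfl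
      have h0 : (τ 0)⁻¹ = τ 0 := inv_eq_of_mul_eq_one_left (hτ _)
      rw [this, RR, Th, FreeGroup.lift_apply_of, FreeGroup.lift_apply_of, h0]
  | cons_concat a h ih =>
    rename_i l
    obtain ⟨r, hr⟩ := ih
    obtain ⟨i, b⟩ := a
    let wa : FreeGroup (Fin (n + 1)) :=
      if b then FreeGroup.of 0 * FreeGroup.of i.succ else FreeGroup.of i.succ * FreeGroup.of 0
    refine ⟨(wa * r.1, r.2), fun P _ τ hτ => ?_⟩
    have h0 : (τ 0)⁻¹ = τ 0 := inv_eq_of_mul_eq_one_left (hτ _)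
    have hi : (τ i.succ)⁻¹ = τ i.succ := inv_eq_of_mul_eq_one_left (hτ _)
    have h1 : FreeGroup.mk ((i, b) :: (l ++ [(i, b)])) =
        FreeGroup.mk [(i, b)] * (FreeGroup.mk l * FreeGroup.mk [(i, b)]) := by
      rw [FreeGroup.mul_mk, FreeGroup.mul_mk]; rfl
    have hwa : FreeGroup.lift τ wa = Th τ (FreeGroup.mk [(i, b)]) := by
      cases b
      · have : (FreeGroup.mk [(i, false)] : FreeGroup (Fin n)) = (FreeGroup.of i)⁻¹ := by
          rw [FreeGroup.of, FreeGroup.inv_mk]; rfl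
        rw [this, map_inv, Th, FreeGroup.lift_apply_of, mul_inv_rev, h0, hi]
        simp [wa]
      · have : (FreeGroup.mk [(i, true)] : FreeGroup (Fin n)) = FreeGroup.of i := rfl
        rw [this, Th, FreeGroup.lift_apply_of]
        simp [wa]
    obtain ⟨x, hx, hx'⟩ := Th_letter hτ (i, b)
    have h2 := hr P τ hτ
    rw [RR] at h2
    rw [h1, map_mul, map_mul, ← hx, RR, map_mul, hwa, ← hx]
    have h3 : Th τ (FreeGroup.mk l) = (FreeGroup.lift τ r.1 * τ r.2 * (FreeGroup.lift τ r.1)⁻¹) * τ 0 := by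
      rw [← h2, mul_assoc, hτ, mul_one]
    rw [h3]
    calc x * (FreeGroup.lift τ r.1 * τ r.2 * (FreeGroup.lift τ r.1)⁻¹ * τ 0 * x) * τ 0
        = x * (FreeGroup.lift τ r.1 * τ r.2 * (FreeGroup.lift τ r.1)⁻¹) * (τ 0 * x * τ 0) := by
          simp only [mul_assoc]
      _ = _ := by rw [hx']; simp only [mul_assoc, mul_inv_rev]

lemma pal_refl {p : FreeGroup (Fin n)} (hp : Pal p) :
    ∃ r : FreeGroup (Fin (n + 1)) × Fin (n + 1), ∀ (P : Type) [Group P] (τ : Fin (n + 1) → P),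
      (∀ i, τ i * τ i = 1) → Th τ p * τ 0 = RR τ r := by
  have h := pal_refl_word p.toWord (List.Palindrome.of_reverse_eq ((pal_iff p).mp hp))
  rwa [FreeGroup.mk_toWord] at h

lemma list_refl (l : List (FreeGroup (Fin n))) (hl : ∀ p ∈ l, Pal p) :
    ∃ rs : List (FreeGroup (Fin (n + 1)) × Fin (n + 1)), rs.length = l.length ∧
      ∀ (P : Type) [Group P] (τ : Fin (n + 1) → P), (∀ i, τ i * τ i = 1) →
        Th τ l.prod * (τ 0) ^ l.length = (rs.map (RR τ)).prod := by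
  induction l with
  | nil => exact ⟨[], rfl, fun P _ τ hτ => by simp⟩
  | cons p l ih =>
    obtain ⟨r, hr⟩ := pal_refl (hl p List.mem_cons_self)
    obtain ⟨rs, hlen, hrs⟩ := ih (fun q hq => hl q (List.mem_cons_of_mem _ hq))
    refine ⟨r :: rs.map (fun r => (FreeGroup.of 0 * r.1, r.2)), by simp [hlen],
      fun P _ τ hτ => ?_⟩
    have h0 : (τ 0)⁻¹ = τ 0 := inv_eq_of_mul_eq_one_left (hτ _)
    have h1 : ((rs.map (fun r => (FreeGroup.of 0 * r.1, r.2))).map (RR τ)).prod =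
        τ 0 * (rs.map (RR τ)).prod * (τ 0)⁻¹ := by
      clear hrs hlen
      induction rs with
      | nil => simp
      | cons r rs ih =>
        rw [List.map_cons, List.map_cons, List.prod_cons, ih, List.map_cons, List.prod_cons]
        simp only [RR, map_mul, FreeGroup.lift_apply_of]
        group
    rw [List.map_cons, List.prod_cons, List.prod_cons, h1, ← hr P τ hτ, ← hrs P τ hτ, map_mul,
      List.length_cons, h0, pow_succ]
    have h2 : Th τ p * τ 0 * (τ 0 * (Th τ l.prod * τ 0 ^ l.length) * τ 0) =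
        Th τ p * (τ 0 * τ 0) * (Th τ l.prod * τ 0 ^ l.length * τ 0) := by
      simp only [mul_assoc]
    rw [h2, hτ, mul_one]
    simp only [mul_assoc]

/-- If `g` is congruent to a product of `2m` palindromes modulo `gam r`, then the images of `g`
in groups of class at most `r` are products of `2m` reflections. -/
lemma refl_main {r m : ℕ} {g : FreeGroup (Fin n)} (l : List (FreeGroup (Fin n)))
    (hlen : l.length = 2 * m) (hl : ∀ p ∈ l, Pal p)
    (hg : (l.prod : FreeGroup (Fin n) ⧸ gam (FreeGroup (Fin n)) r) = g) :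
    ∃ rs : List (FreeGroup (Fin (n + 1)) × Fin (n + 1)), rs.length = 2 * m ∧
      ∀ (P : Type) [Group P] (τ : Fin (n + 1) → P), gam P r = ⊥ → (∀ i, τ i * τ i = 1) →
        Th τ g = (rs.map (RR τ)).prod := by
  obtain ⟨rs, h1, h2⟩ := list_refl l hl
  refine ⟨rs, by rw [h1, hlen], fun P _ τ hP hτ => ?_⟩
  rw [← h2 P τ hτ, hlen, pow_mul, sq, hτ, one_pow, mul_one]
  have h3 : l.prod⁻¹ * g ∈ gam (FreeGroup (Fin n)) r := QuotientGroup.eq.mp hg
  have h4 := Subgroup.mem_map_of_mem (Th τ) h3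
  rw [map_lowerCentralSeries] at h4
  have h5 := (lowerCentralSeries_mono (G := P) r)
    (le_top : (⊤ : Subgroup (FreeGroup (Fin n))).map (Th τ) ≤ ⊤) h4
  have h6 : Th τ (l.prod⁻¹ * g) ∈ gam P r := h5
  rw [hP, mem_bot, map_mul, map_inv, inv_mul_eq_one] at h6
  exact h6.symm

end Pool.Agent.Work.MP_e99d20_al
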