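import Pool.Agent.Work.MP_e99d20_al.Wr
import Pool.Agent.Work.MP_e99d20_al.Refl

set_option autoImplicit false

namespace Pool.Agent.Work.MP_e99d20_al

open Subgroup
open scoped commutatorElement

/-- dihedral group of order eight -/
abbrev D4 := DihedralGroup 4
/-- cyclic group of order two -/
abbrev C2 := Multiplicative (ZMod 2)

lemma D4_comm (a b : D4) : ⁅a, b⁆ ∈ center D4 := by
  rw [mem_center_iff]
  revert a b
  decide +kernel

lemma D4_sq (a : D4) : a * a ∈ center D4 := by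
  rw [mem_center_iff]
  revert a
  decide +kernel

lemma D4_cen (a : D4) (h : a ∈ center D4) : a * a = 1 := by
  rw [mem_center_iff] at h
  revert a
  decide +kernel

lemma gam_D4 : gam D4 2 = ⊥ := by
  rw [eq_bot_iff, show gam D4 2 = ⁅gam D4 1, (⊤ : Subgroup D4)⁆ from rfl, commutator_le]
  intro x hx y _
  have h1 : gam D4 1 ≤ center D4 := by
    rw [show gam D4 1 = ⁅(⊤ : Subgroup D4), ⊤⁆ from rfl, commutator_le]
    intro a _ b _
    exact D4_comm a b
  rw [mem_bot, commutatorElement_eq_one_iff_mul_comm]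
  exact (mem_center_iff.mp (h1 hx) y).symm

lemma gam_C2 : gam C2 1 = ⊥ := by
  rw [eq_bot_iff, show gam C2 1 = ⁅(⊤ : Subgroup C2), ⊤⁆ from rfl, commutator_le]
  intro x _ y _
  rw [mem_bot, commutatorElement_eq_one_iff_mul_comm]
  exact mul_comm _ _

lemma gam_bot {G : Type*} [Group G] {k l : ℕ} (h : k ≤ l) (hk : gam G k = ⊥) : gam G l = ⊥ := by
  rw [eq_bot_iff, ← hk]
  exact gam_anti h

lemma gam_WrD4 : gam (Wr D4) 4 = ⊥ := Wr.gam_four D4_comm D4_sq D4_cen

lemma gam_WrC2 : gam (Wr C2) 4 = ⊥ := by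
  have hc : ∀ a : C2, a ∈ center C2 := by
    intro a
    rw [mem_center_iff]
    intro g
    exact mul_comm _ _
  exact Wr.gam_four (fun a b => hc _) (fun a => hc _) (by intro a _; revert a; decide)

variable {n : ℕ}

/-! ### Counting -/

/-- number of reflections of type `a` -/
def cnt (rs : List (FreeGroup (Fin (n + 1)) × Fin (n + 1))) (a : Fin (n + 1)) : ℕ :=
  (rs.map Prod.snd).count a

lemma sum_cnt (rs : List (FreeGroup (Fin (n + 1)) × Fin (n + 1))) :
    ∑ a, cnt rs a = rs.length := by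
  have h := Multiset.sum_count_eq_card (s := (Finset.univ : Finset (Fin (n + 1))))
    (m := ((rs.map Prod.snd : List (Fin (n + 1))) : Multiset (Fin (n + 1)))) (by simp)
  simp only [Multiset.coe_count, Multiset.coe_card, List.length_map] at h
  exact h

lemma cnt_zero {rs : List (FreeGroup (Fin (n + 1)) × Fin (n + 1))} {a : Fin (n + 1)}
    (h : cnt rs a = 0) : ∀ r ∈ rs, r.2 ≠ a := by
  intro r hr ha
  have h1 : a ∉ rs.map Prod.snd := List.count_eq_zero.mp h
  exact h1 (List.mem_map.mpr ⟨r, hr, ha⟩)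

/-- product of reflections in `C2` -/
lemma prod_C2 (rs : List (FreeGroup (Fin (n + 1)) × Fin (n + 1))) (a : Fin (n + 1)) :
    (rs.map (RR (fun i => if i = a then (Multiplicative.ofAdd 1 : C2) else 1))).prod =
      (Multiplicative.ofAdd 1 : C2) ^ (cnt rs a) := by
  induction rs with
  | nil => simp [cnt]
  | cons r rs ih =>
    have hc : cnt (r :: rs) a = (if r.2 = a then 1 else 0) + cnt rs a := by
      simp only [cnt, List.map_cons, List.count_cons, beq_iff_eq]
      exact add_comm _ _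
    rw [List.map_cons, List.prod_cons, ih, hc, pow_add]
    congr 1
    rw [RR, mul_comm (FreeGroup.lift _ r.1), mul_inv_cancel_right]
    split_ifs <;> simp

lemma even_of_pow {k : ℕ} (h : (Multiplicative.ofAdd 1 : C2) ^ k = 1) : Even k := by
  rcases Nat.even_or_odd k with hk | ⟨m, rfl⟩
  · exact hk
  · exfalso
    have h2 : (Multiplicative.ofAdd 1 : C2) ^ 2 = 1 := by decide
    rw [pow_succ, pow_mul, h2, one_pow, one_mul] at h
    exact absurd h (by decide)

lemma exists_two_zero (hn : 1 ≤ n) {c : Fin (n + 1) → ℕ} (he : ∀ a, Even (c a))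
    (hs : ∑ a, c a ≤ 2 * (n - 1)) : ∃ i j, i ≠ j ∧ c i = 0 ∧ c j = 0 := by
  by_contra hcon
  have h1 : ((Finset.univ : Finset (Fin (n + 1))).filter (fun a => c a = 0)).card ≤ 1 := by
    rw [Finset.card_le_one]
    intro i hi j hj
    by_contra hij
    exact hcon ⟨i, j, hij, (Finset.mem_filter.mp hi).2, (Finset.mem_filter.mp hj).2⟩
  have h2 : ∀ a, 2 ≤ c a + (if c a = 0 then 2 else 0) := by
    intro a
    split_ifs with h
    · omega
    · obtain ⟨m, hm⟩ := he a; omega
  have h3 : ∑ a : Fin (n + 1), 2 ≤ ∑ a : Fin (n + 1), (c a + (if c a = 0 then 2 else 0)) :=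
    Finset.sum_le_sum (fun a _ => h2 a)
  rw [Finset.sum_add_distrib, Finset.sum_const, Finset.card_univ, Fintype.card_fin, smul_eq_mul,
    ← Finset.sum_filter, Finset.sum_const, smul_eq_mul] at h3
  omega

lemma exists_small (hn : 3 ≤ n) {c : Fin (n + 1) → ℕ} (he : ∀ a, Even (c a))
    (hs : ∑ a, c a ≤ 2 * n) : ∃ i j l, i ≠ j ∧ i ≠ l ∧ j ≠ l ∧ c i = 0 ∧ c j ≤ 2 ∧ c l ≤ 2 := by
  obtain ⟨i, hi⟩ : ∃ i, c i = 0 := by
    by_contra hcon
    have h2 : ∀ a, 2 ≤ c a := by
      intro a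
      obtain ⟨m, hm⟩ := he a
      have : c a ≠ 0 := fun h => hcon ⟨a, h⟩
      omega
    have h3 : ∑ a : Fin (n + 1), 2 ≤ ∑ a : Fin (n + 1), c a := Finset.sum_le_sum (fun a _ => h2 a)
    rw [Finset.sum_const, Finset.card_univ, Fintype.card_fin, smul_eq_mul] at h3
    omega
  by_contra hcon
  set A := (Finset.univ : Finset (Fin (n + 1))).filter (fun a => a ≠ i ∧ c a ≤ 2) with hA
  have h1 : A.card ≤ 1 := by
    rw [Finset.card_le_one]
    intro j hj l hl
    by_contra hjl
    have hj' := (Finset.mem_filter.mp hj).2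
    have hl' := (Finset.mem_filter.mp hl).2
    exact hcon ⟨i, j, l, hj'.1.symm, hl'.1.symm, hjl, hi, hj'.2, hl'.2⟩
  have h2 : ∀ a, 4 ≤ c a + (if a ≠ i ∧ c a ≤ 2 then 4 else 0) + (if a = i then 4 else 0) := by
    intro a
    by_cases h : a = i
    · simp [h]
    · by_cases h' : c a ≤ 2
      · simp [h, h']
      · obtain ⟨m, hm⟩ := he a
        simp only [h, h', and_false, if_false]
        omega
  have h3 : ∑ a : Fin (n + 1), 4 ≤ ∑ a : Fin (n + 1),
      (c a + (if a ≠ i ∧ c a ≤ 2 then 4 else 0) + (if a = i then 4 else 0)) :=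
    Finset.sum_le_sum (fun a _ => h2 a)
  rw [Finset.sum_add_distrib, Finset.sum_add_distrib, Finset.sum_const, Finset.card_univ,
    Fintype.card_fin, smul_eq_mul, ← Finset.sum_filter, Finset.sum_const, smul_eq_mul,
    Finset.sum_ite_eq' Finset.univ i, if_pos (Finset.mem_univ i), ← hA] at h3
  omega

/-! ### The elements -/

/-- the pairs `a < b` -/
noncomputable def pairs (n : ℕ) : List (Fin (n + 1) × Fin (n + 1)) :=
  ((Finset.univ : Finset (Fin (n + 1) × Fin (n + 1))).filter (fun p => p.1 < p.2)).toList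

/-- the element for class two -/
noncomputable def g2 (n : ℕ) : FreeGroup (Fin n) :=
  ((pairs n).map (fun p => ((X p.1)⁻¹ * X p.2) ^ 2)).prod

/-- the triples `(a, b, c)` with `b < c` -/
noncomputable def triples (n : ℕ) : List (Fin (n + 1) × Fin (n + 1) × Fin (n + 1)) :=
  ((Finset.univ : Finset (Fin (n + 1) × Fin (n + 1) × Fin (n + 1))).filter
    (fun p => p.2.1 < p.2.2 ∧ p.1 ≠ p.2.1 ∧ p.1 ≠ p.2.2)).toList

/-- the element for class four -/
noncomputable def g4 (n : ℕ) : FreeGroup (Fin n) :=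
  ((triples n).map (fun p => ⁅((X p.1)⁻¹ * X p.2.1) ^ 2, ((X p.1)⁻¹ * X p.2.2) ^ 2⁆)).prod

lemma Th_g2 {P : Type} [Group P] {τ : Fin (n + 1) → P} (hτ : ∀ i, τ i * τ i = 1) :
    Th τ (g2 n) = ((pairs n).map (fun p => (τ p.1 * τ p.2) ^ 2)).prod := by
  rw [g2, map_list_prod, List.map_map]
  congr 1
  apply List.map_congr_left
  intro p _
  simp only [Function.comp]
  rw [map_pow, Th_XX hτ]

lemma Th_g4 {P : Type} [Group P] {τ : Fin (n + 1) → P} (hτ : ∀ i, τ i * τ i = 1) :
    Th τ (g4 n) = ((triples n).map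
      (fun p => ⁅(τ p.1 * τ p.2.1) ^ 2, (τ p.1 * τ p.2.2) ^ 2⁆)).prod := by
  rw [g4, map_list_prod, List.map_map]
  congr 1
  apply List.map_congr_left
  intro p _
  simp only [Function.comp]
  rw [map_commutatorElement, map_pow, map_pow, Th_XX hτ, Th_XX hτ]

lemma prod_single {α M : Type*} [DecidableEq α] [Monoid M] {L : List α} (hL : L.Nodup) {a : α}
    (ha : a ∈ L) {f : α → M} (hf : ∀ b, b ≠ a → b ∈ L → f b = 1) : (L.map f).prod = f a := by
  rw [List.prod_map_eq_pow_single a f hf, List.count_eq_one_of_mem hL ha, pow_one]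

lemma prod_trivial {α M : Type*} [Monoid M] {L : List α} {f : α → M} (hf : ∀ b ∈ L, f b = 1) :
    (L.map f).prod = 1 := by
  apply List.prod_eq_one
  intro x hx
  obtain ⟨b, hb, rfl⟩ := List.mem_map.mp hx
  exact hf b hb

/-! ### Class two -/

lemma eval_pairs {P : Type} [Group P] {τ : Fin (n + 1) → P} (hτ : ∀ k, τ k * τ k = 1)
    {i j : Fin (n + 1)} (h : i < j) (hτk : ∀ k, k ≠ i → k ≠ j → τ k = 1) :
    ((pairs n).map (fun p => (τ p.1 * τ p.2) ^ 2)).prod = (τ i * τ j) ^ 2 := by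
  have hsq : ∀ k, k ≠ i → k ≠ j → ∀ x, (τ k * τ x) ^ 2 = 1 ∧ (τ x * τ k) ^ 2 = 1 := by
    intro k h1 h2 x
    rw [hτk k h1 h2, one_mul, mul_one, sq, hτ]
    exact ⟨rfl, rfl⟩
  refine prod_single (a := (i, j)) (f := fun p => (τ p.1 * τ p.2) ^ 2) (Finset.nodup_toList _)
    ?_ ?_
  · exact Finset.mem_toList.mpr (Finset.mem_filter.mpr ⟨Finset.mem_univ _, h⟩)
  · rintro ⟨a, b⟩ hb hb'
    have hab : a < b := (Finset.mem_filter.mp (Finset.mem_toList.mp hb')).2
    by_cases ha : a ≠ i ∧ a ≠ j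
    · exact (hsq a ha.1 ha.2 b).1
    · by_cases hb2 : b ≠ i ∧ b ≠ j
      · exact (hsq b hb2.1 hb2.2 a).2
      · exfalso
        have ha' : a = i ∨ a = j := by
          by_contra hc; rw [not_or] at hc; exact ha hc
        have hb3 : b = i ∨ b = j := by
          by_contra hc; rw [not_or] at hc; exact hb2 hc
        rcases ha' with rfl | rfl <;> rcases hb3 with rfl | rfl
        · exact lt_irrefl _ hab
        · exact hb rfl
        · exact lt_asymm h hab
        · exact lt_irrefl _ hab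

lemma cnt_even {rs : List (FreeGroup (Fin (n + 1)) × Fin (n + 1))} {g : FreeGroup (Fin n)} {r : ℕ}
    (hr : 1 ≤ r) (hg : ∀ τ : Fin (n + 1) → C2, (∀ i, τ i * τ i = 1) → Th τ g = 1)
    (h2 : ∀ (P : Type) [Group P] (τ : Fin (n + 1) → P), gam P r = ⊥ → (∀ i, τ i * τ i = 1) →
        Th τ g = (rs.map (RR τ)).prod) (a : Fin (n + 1)) : Even (cnt rs a) := by
  set τ : Fin (n + 1) → C2 := fun i => if i = a then (Multiplicative.ofAdd 1 : C2) else 1 with hτd
  have hτ : ∀ i, τ i * τ i = 1 := by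
    intro i; simp only [hτd]; split_ifs <;> decide
  have h3 := h2 C2 τ (gam_bot hr gam_C2) hτ
  rw [hg τ hτ, prod_C2] at h3
  exact even_of_pow h3.symm

theorem lower_two (hn : 2 ≤ n) (l : List (FreeGroup (Fin n))) (hlen : l.length = 2 * (n - 1))
    (hl : ∀ p ∈ l, Pal p)
    (hg : (l.prod : FreeGroup (Fin n) ⧸ gam (FreeGroup (Fin n)) 2) = g2 n) : False := by
  obtain ⟨rs, h1, h2⟩ := refl_main l hlen hl hg
  have heven : ∀ a, Even (cnt rs a) := by
    refine cnt_even (g := g2 n) (r := 2) (by norm_num) ?_ h2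
    intro τ hτ
    rw [Th_g2 hτ, prod_trivial]
    intro b _
    generalize τ b.1 * τ b.2 = x
    revert x; decide
  obtain ⟨i, j, hij, hi, hj⟩ := exists_two_zero (by omega) heven
    (by rw [sum_cnt, h1])
  set τ : Fin (n + 1) → D4 := fun k => if k = i then DihedralGroup.sr 0 else
    if k = j then DihedralGroup.sr 1 else 1 with hτd
  have hτi : τ i = DihedralGroup.sr 0 := by simp [hτd]
  have hτj : τ j = DihedralGroup.sr 1 := by simp [hτd, hij.symm]
  have hτk : ∀ k, k ≠ i → k ≠ j → τ k = 1 := by intro k h1 h2; simp [hτd, h1, h2]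
  have hτ : ∀ k, τ k * τ k = 1 := by
    intro k; simp only [hτd]; split_ifs <;> decide
  have h3 := h2 D4 τ gam_D4 hτ
  have h4 : (rs.map (RR τ)).prod = 1 := by
    apply prod_trivial
    intro r hr
    rw [RR, hτk _ (cnt_zero hi r hr) (cnt_zero hj r hr), mul_one, mul_inv_cancel]
  rw [h4, Th_g2 hτ] at h3
  rcases lt_or_gt_of_ne hij with h | h
  · rw [eval_pairs hτ h hτk, hτi, hτj] at h3
    exact absurd h3 (by decide)
  · rw [eval_pairs hτ h (fun k h1 h2 => hτk k h2 h1), hτi, hτj] at h3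
    exact absurd h3 (by decide)

end Pool.Agent.Work.MP_e99d20_al
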