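import Pool.Agent.Work.MP_e99d20_al.Gam

set_option autoImplicit false

namespace Pool.Agent.Work.MP_e99d20_al

open Subgroup
open scoped commutatorElement

section general

variable {G : Type*} [Group G]

lemma normal_of_gam_one_le {K : Subgroup G} (h : gam G 1 ≤ K) : K.Normal := by
  constructor
  intro z hz g
  have h1 : g * z * g⁻¹ = ⁅g, z⁆ * z := by rw [commutatorElement_def]; group
  rw [h1]
  exact mul_mem (h (comm_mem' (k := 0) (mem_top z) g)) hz

/-- Replacing the left entry of a commutator. -/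
lemma mk_comm_congr_left {N : Subgroup G} [N.Normal] {k : ℕ} (hN : gam G (k + 2) ≤ N) {y y' : G}
    (hy : y⁻¹ * y' ∈ gam G (k + 1)) (f : G) :
    ((⁅y', f⁆ : G) : G ⧸ N) = (⁅y, f⁆ : G) := by
  have h := mk_comm_mul_left hN (y := y) (y' := y⁻¹ * y') (gam_succ_le k hy) f
  rw [mul_inv_cancel_left] at h
  rw [h]
  have h2 : ((⁅y⁻¹ * y', f⁆ : G) : G ⧸ N) = 1 :=
    (QuotientGroup.eq_one_iff _).mpr (hN (comm_mem hy f))
  rw [h2, mul_one]

lemma mk_comm_inv_right {N : Subgroup G} [N.Normal] {k : ℕ} (hN : gam G (k + 2) ≤ N) {y : G}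
    (hy : y ∈ gam G k) (f : G) :
    ((⁅y, f⁻¹⁆ : G) : G ⧸ N) = ((⁅y, f⁆ : G) : G ⧸ N)⁻¹ := by
  have h := mk_comm_mul_right hN hy f⁻¹ f
  rw [inv_mul_cancel, commutatorElement_one_right, QuotientGroup.mk_one] at h
  exact eq_inv_of_mul_eq_one_left h.symm

/-- The subgroup generated by squares and `gam 1`. -/
def Phi (G : Type*) [Group G] : Subgroup G := closure {x | ∃ f : G, x = f ^ 2} ⊔ gam G 1

lemma gam_one_le_Phi : gam G 1 ≤ Phi G := le_sup_right

lemma sq_mem_Phi (f : G) : f ^ 2 ∈ Phi G :=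
  (le_sup_left : closure {x | ∃ f : G, x = f ^ 2} ≤ Phi G) (subset_closure ⟨f, rfl⟩)

lemma Phi_le {K : Subgroup G} (h1 : gam G 1 ≤ K) (h2 : ∀ f : G, f ^ 2 ∈ K) : Phi G ≤ K := by
  refine sup_le ?_ h1
  rw [closure_le]
  rintro x ⟨f, rfl⟩
  exact h2 f

instance Phi_normal : (Phi G).Normal := normal_of_gam_one_le gam_one_le_Phi

end general

section free

variable {ι : Type*}

/-- Reversal of words as an anti-automorphism of the free group. -/
def rv (w : FreeGroup ι) : FreeGroup ι :=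
  (FreeGroup.lift (fun i => MulOpposite.op (FreeGroup.of i)) w).unop

@[simp] lemma rv_mul (a b : FreeGroup ι) : rv (a * b) = rv b * rv a := by simp [rv]
@[simp] lemma rv_one : rv (1 : FreeGroup ι) = 1 := by simp [rv]
@[simp] lemma rv_inv (a : FreeGroup ι) : rv a⁻¹ = (rv a)⁻¹ := by simp [rv]
@[simp] lemma rv_of (i : ι) : rv (FreeGroup.of i) = FreeGroup.of i := by simp [rv]

@[simp] lemma rv_rv (a : FreeGroup ι) : rv (rv a) = a := by
  induction a using FreeGroup.induction_on with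
  | C1 => simp
  | of i => simp
  | inv_of i _ => simp
  | mul x y hx hy => simp [hx, hy]

lemma rv_comm (a b : FreeGroup ι) : rv ⁅a, b⁆ = ⁅(rv b)⁻¹, (rv a)⁻¹⁆ := by
  rw [commutatorElement_def, commutatorElement_def]
  simp [mul_assoc]

/-- `rv` modulo `gam 1` is the identity. -/
lemma rv_mod (w : FreeGroup ι) : w⁻¹ * rv w ∈ gam (FreeGroup ι) 1 := by
  rw [← QuotientGroup.eq]
  induction w using FreeGroup.induction_on with
  | C1 => simp
  | of i => simp
  | inv_of i _ => simp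
  | mul x y hx hy =>
    rw [rv_mul, QuotientGroup.mk_mul, QuotientGroup.mk_mul, hx, hy]
    exact comm_right (k := 0) le_rfl (mem_top _) _

/-- The automorphism `w ↦ (rv w)⁻¹`. -/
def tauHom : FreeGroup ι →* FreeGroup ι where
  toFun w := (rv w)⁻¹
  map_one' := by simp
  map_mul' a b := by simp

lemma rv_gam {k : ℕ} {y : FreeGroup ι} (hy : y ∈ gam (FreeGroup ι) k) :
    rv y ∈ gam (FreeGroup ι) k := by
  have h1 := Subgroup.mem_map_of_mem (tauHom (ι := ι)) hy
  rw [map_lowerCentralSeries] at h1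
  have h2 := (lowerCentralSeries_mono (G := FreeGroup ι) k) (le_top : (⊤ : Subgroup (FreeGroup ι)).map tauHom ≤ ⊤) h1
  have h3 : rv y = (tauHom y)⁻¹ := by simp [tauHom]
  rw [h3]
  exact inv_mem h2

lemma rv_gam_one {y : FreeGroup ι} (hy : y ∈ gam (FreeGroup ι) 1) :
    ((rv y : FreeGroup ι) : FreeGroup ι ⧸ gam (FreeGroup ι) 2) =
      ((y : FreeGroup ι) : FreeGroup ι ⧸ gam (FreeGroup ι) 2)⁻¹ := by
  rw [show gam (FreeGroup ι) 1 = closure { x | ∃ p ∈ gam (FreeGroup ι) 0, ∃ q ∈ (⊤ : Subgroup (FreeGroup ι)), ⁅p, q⁆ = x } from rfl] at hy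
  induction hy using closure_induction with
  | mem x hx =>
    obtain ⟨a, _, b, _, rfl⟩ := hx
    rw [rv_comm]
    have h1 : ((⁅(rv b)⁻¹, (rv a)⁻¹⁆ : FreeGroup ι) : FreeGroup ι ⧸ gam (FreeGroup ι) 2) =
        (⁅b⁻¹, (rv a)⁻¹⁆ : FreeGroup ι) := by
      apply mk_comm_congr_left (k := 0) le_rfl
      have := rv_mod b⁻¹
      simpa using this
    have h2 : ((⁅b⁻¹, (rv a)⁻¹⁆ : FreeGroup ι) : FreeGroup ι ⧸ gam (FreeGroup ι) 2) =
        (⁅b⁻¹, a⁻¹⁆ : FreeGroup ι) := by
      apply mk_comm_congr (k := 0) le_rfl (mem_top _)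
      have := rv_mod a⁻¹
      simpa using this
    rw [h1, h2, mk_comm_inv_left (k := 0) le_rfl (mem_top _),
      mk_comm_inv_right (k := 0) le_rfl (mem_top _), inv_inv, ← commutatorElement_inv,
      QuotientGroup.mk_inv]
  | one => rw [rv_one, QuotientGroup.mk_one, inv_one]
  | mul x y _ _ hx hy =>
    rw [rv_mul, QuotientGroup.mk_mul, QuotientGroup.mk_mul, hx, hy, mul_inv_rev]
  | inv x _ hx =>
    rw [rv_inv, QuotientGroup.mk_inv, QuotientGroup.mk_inv, hx]

lemma rv_gam_one' {y : FreeGroup ι} (hy : y ∈ gam (FreeGroup ι) 1) :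
    y * rv y ∈ gam (FreeGroup ι) 2 := by
  rw [← QuotientGroup.eq_one_iff, QuotientGroup.mk_mul, rv_gam_one hy, mul_inv_cancel]

lemma rv_gam_two {c : FreeGroup ι} (hc : c ∈ gam (FreeGroup ι) 2) :
    ((rv c : FreeGroup ι) : FreeGroup ι ⧸ gam (FreeGroup ι) 3) = c := by
  rw [show gam (FreeGroup ι) 2 = closure { x | ∃ p ∈ gam (FreeGroup ι) 1, ∃ q ∈ (⊤ : Subgroup (FreeGroup ι)), ⁅p, q⁆ = x } from rfl] at hc
  have hmem : ∀ x ∈ closure { x | ∃ p ∈ gam (FreeGroup ι) 1, ∃ q ∈ (⊤ : Subgroup (FreeGroup ι)), ⁅p, q⁆ = x },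
      x ∈ gam (FreeGroup ι) 2 := fun x hx => hx
  induction hc using closure_induction with
  | mem x hx =>
    obtain ⟨y, hy, b, _, rfl⟩ := hx
    rw [rv_comm, ← commutatorElement_inv, QuotientGroup.mk_inv]
    -- rv ⁅y,b⁆ = ⁅(rv y)⁻¹, (rv b)⁻¹⁆⁻¹
    have hy1 : (rv y)⁻¹ ∈ gam (FreeGroup ι) 1 := inv_mem (rv_gam hy)
    have h1 : ((⁅(rv y)⁻¹, (rv b)⁻¹⁆ : FreeGroup ι) : FreeGroup ι ⧸ gam (FreeGroup ι) 3) =
        (⁅y, (rv b)⁻¹⁆ : FreeGroup ι) := by
      apply mk_comm_congr_left (k := 1) le_rfl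
      rw [← mul_inv_rev]
      apply inv_mem
      have h2 := rv_gam_one' (rv_gam hy)
      rwa [rv_rv] at h2
    have h2 : ((⁅y, (rv b)⁻¹⁆ : FreeGroup ι) : FreeGroup ι ⧸ gam (FreeGroup ι) 3) =
        (⁅y, b⁻¹⁆ : FreeGroup ι) := by
      apply mk_comm_congr (k := 1) le_rfl hy
      have := rv_mod b⁻¹
      simpa using this
    rw [h1, h2, mk_comm_inv_right (k := 1) le_rfl hy, inv_inv]
  | one => simp
  | mul x y hx' hy' hx hy =>
    rw [rv_mul, QuotientGroup.mk_mul, QuotientGroup.mk_mul, hx, hy]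
    exact comm_right (k := 2) le_rfl (hmem y hy') x
  | inv x _ hx =>
    rw [rv_inv, QuotientGroup.mk_inv, QuotientGroup.mk_inv, hx]

/-- Palindromes of the free group: fixed points of the reversal. -/
def Pal (w : FreeGroup ι) : Prop := rv w = w

lemma Pal.one : Pal (1 : FreeGroup ι) := rv_one
lemma Pal.of (i : ι) : Pal (FreeGroup.of i) := rv_of i
lemma Pal.inv {p : FreeGroup ι} (h : Pal p) : Pal p⁻¹ := by rw [Pal, rv_inv, h]
lemma Pal.conj {p : FreeGroup ι} (h : Pal p) (y : FreeGroup ι) : Pal (y * p * rv y) := by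
  rw [Pal, rv_mul, rv_mul, rv_rv, h, mul_assoc]
lemma Pal.conj' {p : FreeGroup ι} (h : Pal p) (y : FreeGroup ι) : Pal ((rv y)⁻¹ * p * y⁻¹) := by
  rw [Pal, rv_mul, rv_mul, rv_inv, rv_inv, rv_rv, h, mul_assoc]
lemma Pal.mul_rv (y : FreeGroup ι) : Pal (y * rv y) := by
  rw [Pal, rv_mul, rv_rv]

lemma Pal.comm_rv {a b : FreeGroup ι} (ha : Pal a) (hb : Pal b) :
    ⁅a, b⁆ * rv ⁅a, b⁆ = ⁅⁅a, b⁆, (b * a)⁻¹⁆ := by
  rw [rv_comm, ha, hb]
  simp only [commutatorElement_def]
  group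

end free

section words

variable {ι : Type*} [DecidableEq ι]

omit [DecidableEq ι] in
lemma rv_mk (L : List (ι × Bool)) : rv (FreeGroup.mk L) = FreeGroup.mk L.reverse := by
  induction L with
  | nil => simp [← FreeGroup.one_eq_mk]
  | cons a L ih =>
    have h1 : FreeGroup.mk (a :: L) = FreeGroup.mk [a] * FreeGroup.mk L := by
      rw [FreeGroup.mul_mk]; rfl
    have h2 : rv (FreeGroup.mk [a]) = FreeGroup.mk [a] := by
      obtain ⟨i, b⟩ := a
      cases b
      · have : (FreeGroup.mk [(i, false)] : FreeGroup ι) = (FreeGroup.of i)⁻¹ := by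
          rw [FreeGroup.of, FreeGroup.inv_mk]; rfl
        rw [this]; simp
      · exact rv_of i
    rw [h1, rv_mul, ih, h2, List.reverse_cons, FreeGroup.mul_mk]

/-- An element of the free group is fixed by the reversal iff its reduced word is a palindrome. -/
lemma pal_iff (w : FreeGroup ι) : Pal w ↔ w.toWord.reverse = w.toWord := by
  have h1 : rv w = FreeGroup.mk w.toWord.reverse := by
    conv_lhs => rw [← FreeGroup.mk_toWord (x := w)]
    exact rv_mk _
  constructor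
  · intro h
    rw [Pal, h1] at h
    have h2 : FreeGroup.IsReduced w.toWord.reverse := by
      have h3 := FreeGroup.isReduced_toWord (x := w)
      rw [FreeGroup.IsReduced] at h3 ⊢
      rw [List.isChain_reverse]
      refine h3.imp ?_
      intro a b hab h
      exact (hab h.symm).symm
    have h4 := congrArg FreeGroup.toWord h
    rw [FreeGroup.toWord_mk, h2.reduce_eq] at h4
    exact h4
  · intro h
    rw [Pal, h1, h, FreeGroup.mk_toWord]

end words

end Pool.Agent.Work.MP_e99d20_al
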