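import Pool.Agent.Work.MP_e99d20_al.Level2

set_option autoImplicit false

namespace Pool.Agent.Work.MP_e99d20_al

open Subgroup
open scoped commutatorElement

variable {ι : Type*} [DecidableEq ι]

/-- Parity of the exponent sum of the `j`-th generator. -/
def parj (j : ι) : FreeGroup ι →* Multiplicative (ZMod 2) :=
  FreeGroup.lift (fun i => if i = j then Multiplicative.ofAdd 1 else 1)

lemma parj_self (j : ι) : parj j (xx j) = Multiplicative.ofAdd 1 := by simp [parj]
lemma parj_ne {i j : ι} (h : i ≠ j) : parj j (xx i) = 1 := by simp [parj, h]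

lemma mz_sq (a : Multiplicative (ZMod 2)) : a ^ 2 = 1 := by
  revert a; decide

lemma parj_rv (j : ι) (u : FreeGroup ι) : parj j (rv u) = parj j u := by
  have h := hom_gam_one (parj j) (rv_mod u)
  rw [map_mul, map_inv] at h
  exact (inv_mul_eq_one.mp h).symm

lemma parj_Phi (j : ι) {u : FreeGroup ι} (h : u ∈ Phi (FreeGroup ι)) : parj j u = 1 := by
  have : Phi (FreeGroup ι) ≤ (parj j).ker := by
    apply Phi_le
    · intro c hc; exact hom_gam_one _ hc
    · intro f; rw [MonoidHom.mem_ker, map_pow, mz_sq]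
  exact this h

lemma parj_Fsub {S0 : Set ι} {js : List ι} {j : ι} (h0 : j ∉ S0) (hj : j ∉ js)
    {f : FreeGroup ι} (hf : f ∈ Fsub S0 js) : parj j f = 1 := by
  have : Fsub S0 js ≤ (parj j).ker := by
    rw [Fsub, closure_le]
    rintro _ ⟨i, hi, rfl⟩
    apply parj_ne
    rintro rfl
    rcases hi with hi | hi
    · exact h0 hi
    · exact hj hi
  exact this hf

section theta

variable {D : Subgroup (FreeGroup ι)} [D.Normal] (hD0 : gam (FreeGroup ι) 2 ≤ D)
  (hD1 : ∀ c ∈ gam (FreeGroup ι) 1, c ^ 2 ∈ D)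

/-- `u ↦ u (rv u)`. -/
def th (u : FreeGroup ι) : FreeGroup ι := u * rv u

include hD0 hD1 in
omit [DecidableEq ι] in
lemma th_central (u f : FreeGroup ι) :
    ((th u : FreeGroup ι) : FreeGroup ι ⧸ D) * f = f * (th u : FreeGroup ι) := by
  have h1 : ((⁅u * rv u, f⁆ : FreeGroup ι) : FreeGroup ι ⧸ D) = 1 := by
    rw [mk_comm_mul_left (k := 0) hD0 (mem_top _),
      mk_comm_congr_left (k := 0) hD0 (rv_mod u) f, ← QuotientGroup.mk_mul, ← sq]
    exact (QuotientGroup.eq_one_iff _).mpr (hD1 _ (comm_mem (k := 0) (mem_top _) _))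
  have h2 : th u * f = ⁅u * rv u, f⁆ * (f * th u) := by
    rw [commutatorElement_def, th]; group
  rw [← QuotientGroup.mk_mul, h2, QuotientGroup.mk_mul, h1, one_mul, QuotientGroup.mk_mul]

include hD0 hD1 in
omit [DecidableEq ι] in
lemma th_mul (u w : FreeGroup ι) :
    ((th (u * w) : FreeGroup ι) : FreeGroup ι ⧸ D) = (th u : FreeGroup ι) * (th w : FreeGroup ι) := by
  have h1 : th (u * w) = u * th w * rv u := by simp [th, mul_assoc]
  rw [h1, QuotientGroup.mk_mul, QuotientGroup.mk_mul, ← th_central hD0 hD1 w u, mul_assoc,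
    ← QuotientGroup.mk_mul]
  exact th_central hD0 hD1 w (u * rv u)

omit [DecidableEq ι] [D.Normal] in
lemma th_one : th (1 : FreeGroup ι) = 1 := by simp [th]

include hD0 hD1 in
omit [DecidableEq ι] in
lemma th_inv (u : FreeGroup ι) :
    ((th u⁻¹ : FreeGroup ι) : FreeGroup ι ⧸ D) = ((th u : FreeGroup ι) : FreeGroup ι ⧸ D)⁻¹ := by
  have h := th_mul hD0 hD1 u⁻¹ u
  rw [inv_mul_cancel, th_one, QuotientGroup.mk_one] at h
  exact eq_inv_of_mul_eq_one_left h.symm

include hD0 in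
omit [DecidableEq ι] in
/-- `rv v * v ≡ th v`. -/
lemma rv_mul_self (v : FreeGroup ι) :
    ((rv v * v : FreeGroup ι) : FreeGroup ι ⧸ D) = (th v : FreeGroup ι) := by
  have h1 : rv v = v * (v⁻¹ * rv v) := by group
  have h2 := comm_right (N := D) (k := 1) hD0 (rv_mod v) v
  have h3 : rv v * v = v * ((v⁻¹ * rv v) * v) := by group
  rw [h3, QuotientGroup.mk_mul, QuotientGroup.mk_mul, h2, ← QuotientGroup.mk_mul,
    ← QuotientGroup.mk_mul, th]
  congr 1
  group

/-- The second palindrome of a pair. -/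
def pp (o : ι → Bool) (v : ι → FreeGroup ι) (j : ι) : FreeGroup ι :=
  if o j then 1 else rv (v j) * (xx j)⁻¹ * v j

/-- The pair products. -/
def AA (o : ι → Bool) (v : ι → FreeGroup ι) (j : ι) : FreeGroup ι := xx j * pp o v j

include hD0 in
omit [DecidableEq ι] in
lemma AA_even {o : ι → Bool} {v : ι → FreeGroup ι} {j : ι} (ho : o j = false) {f : FreeGroup ι}
    (hv : v j = xx j * f) :
    ((AA o v j : FreeGroup ι) : FreeGroup ι ⧸ D) =
      (⁅xx j, f⁆ : FreeGroup ι) * (th (v j) : FreeGroup ι) := by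
  have h1 : AA o v j = ⁅xx j, rv (v j)⁆ * (rv (v j) * v j) := by
    rw [AA, pp, if_neg (by simp [ho]), commutatorElement_def]; group
  have h2 : ((⁅xx j, rv (v j)⁆ : FreeGroup ι) : FreeGroup ι ⧸ D) = (⁅xx j, f⁆ : FreeGroup ι) := by
    rw [mk_comm_congr (k := 0) hD0 (mem_top _) (rv_mod (v j)), hv,
      mk_comm_mul_right (k := 0) hD0 (mem_top _), commutatorElement_self, QuotientGroup.mk_one,
      one_mul]
  rw [h1, QuotientGroup.mk_mul, h2, rv_mul_self hD0]

omit [DecidableEq ι] in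
lemma AA_odd {o : ι → Bool} {v : ι → FreeGroup ι} {j : ι} (ho : o j = true) :
    AA o v j = xx j := by
  rw [AA, pp, if_pos ho, mul_one]

end theta

/-- Decomposition of elements of `Fsub S0 (j :: js)` modulo `gam 2`. -/
lemma decomp {N : Subgroup (FreeGroup ι)} [N.Normal] (hN : gam (FreeGroup ι) 2 ≤ N) (S0 : Set ι)
    (j : ι) (js : List ι) {f : FreeGroup ι} (hf : f ∈ Fsub S0 (j :: js)) :
    ∃ (k : ℤ) (f' f'' : FreeGroup ι), f' ∈ Fsub S0 js ∧ f'' ∈ Fsub S0 js ∧
      (f : FreeGroup ι ⧸ N) = ((xx j ^ k * ⁅xx j, f''⁆ * f' : FreeGroup ι) : FreeGroup ι ⧸ N) := by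
  rw [Fsub] at hf
  induction hf using closure_induction_right with
  | one => exact ⟨0, 1, 1, one_mem _, one_mem _, by simp⟩
  | mul_right x _ y hy ih =>
    obtain ⟨i, hi, rfl⟩ := hy
    obtain ⟨k, f', f'', h1, h2, h3⟩ := ih
    by_cases hij : i = j
    · subst hij
      refine ⟨k + 1, f', f'' * f'⁻¹, h1, mul_mem h2 (inv_mem h1), ?_⟩
      have e1 : xx i ^ k * ⁅xx i, f''⁆ * f' * xx i =
          xx i ^ k * (⁅xx i, f''⁆ * xx i) * (f' * ⁅f'⁻¹, (xx i)⁻¹⁆) := by
        rw [commutatorElement_def f'⁻¹]; group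
      rw [QuotientGroup.mk_mul, h3, ← QuotientGroup.mk_mul, e1]
      have e2 := comm_right (N := N) (k := 1) hN (comm_mem (k := 0) (mem_top (xx i)) f'') (xx i)
      have e3 := comm_right (N := N) (k := 1) hN
        (comm_mem (k := 0) (mem_top (f'⁻¹)) (xx i)⁻¹) f'
      have e4 : ((⁅f'⁻¹, (xx i)⁻¹⁆ : FreeGroup ι) : FreeGroup ι ⧸ N) = (⁅xx i, f'⁻¹⁆ : FreeGroup ι) := by
        rw [mk_comm_inv_right (k := 0) hN (mem_top _), ← commutatorElement_inv (xx i) f'⁻¹,
          QuotientGroup.mk_inv, inv_inv]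
      have e5 := mk_comm_mul_right (k := 0) hN (mem_top (xx i)) f'' f'⁻¹
      simp only [QuotientGroup.mk_mul] at e2 e3 ⊢
      rw [e2, ← e3, e4, e5, zpow_add_one, QuotientGroup.mk_mul]
      simp only [mul_assoc]
    · have hi' : i ∈ S0 ∪ {i | i ∈ js} := by
        rcases hi with hi | hi
        · exact Or.inl hi
        · exact Or.inr ((List.mem_cons.mp hi).resolve_left hij)
      refine ⟨k, f' * xx i, f'', mul_mem h1 (subset_closure ⟨i, hi', rfl⟩), h2, ?_⟩
      rw [QuotientGroup.mk_mul, h3, ← QuotientGroup.mk_mul, mul_assoc]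
  | mul_inv_cancel x _ y hy ih =>
    obtain ⟨i, hi, rfl⟩ := hy
    obtain ⟨k, f', f'', h1, h2, h3⟩ := ih
    by_cases hij : i = j
    · subst hij
      refine ⟨k - 1, f', f'' * f', h1, mul_mem h2 h1, ?_⟩
      have e1 : xx i ^ k * ⁅xx i, f''⁆ * f' * (xx i)⁻¹ =
          xx i ^ k * (⁅xx i, f''⁆ * (xx i)⁻¹) * (f' * ⁅f'⁻¹, xx i⁆) := by
        rw [commutatorElement_def f'⁻¹]; group
      rw [QuotientGroup.mk_mul, h3, ← QuotientGroup.mk_mul, e1]
      have e2 := comm_right (N := N) (k := 1) hN (comm_mem (k := 0) (mem_top (xx i)) f'') (xx i)⁻¹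
      have e3 := comm_right (N := N) (k := 1) hN
        (comm_mem (k := 0) (mem_top (f'⁻¹)) (xx i)) f'
      have e4 : ((⁅f'⁻¹, xx i⁆ : FreeGroup ι) : FreeGroup ι ⧸ N) = (⁅xx i, f'⁆ : FreeGroup ι) := by
        rw [mk_comm_inv_left (k := 0) hN (mem_top _), ← commutatorElement_inv (xx i) f',
          QuotientGroup.mk_inv, inv_inv]
      have e5 := mk_comm_mul_right (k := 0) hN (mem_top (xx i)) f'' f'
      simp only [QuotientGroup.mk_mul] at e2 e3 ⊢
      rw [e2, ← e3, e4, e5, zpow_sub_one, QuotientGroup.mk_mul]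
      simp only [mul_assoc]
    · have hi' : i ∈ S0 ∪ {i | i ∈ js} := by
        rcases hi with hi | hi
        · exact Or.inl hi
        · exact Or.inr ((List.mem_cons.mp hi).resolve_left hij)
      refine ⟨k, f' * (xx i)⁻¹, f'', mul_mem h1 (inv_mem (subset_closure ⟨i, hi', rfl⟩)), h2, ?_⟩
      rw [QuotientGroup.mk_mul, h3, ← QuotientGroup.mk_mul, mul_assoc]

end Pool.Agent.Work.MP_e99d20_al
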