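import Pool.Agent.Work.MP_e99d20_al.Stage1

set_option autoImplicit false

namespace Pool.Agent.Work.MP_e99d20_al

open Subgroup
open scoped commutatorElement

variable {ι : Type*} [DecidableEq ι]

omit [DecidableEq ι] in
lemma rv_zpow (x : FreeGroup ι) (m : ℤ) : rv (x ^ m) = (rv x) ^ m := by
  have h : ∀ n : ℕ, rv (x ^ n) = (rv x) ^ n := by
    intro n
    induction n with
    | zero => simp
    | succ n ih => rw [pow_succ, rv_mul, ih, ← pow_succ']
  obtain ⟨n, rfl | rfl⟩ := m.eq_nat_or_neg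
  · rw [zpow_natCast, zpow_natCast, h]
  · rw [zpow_neg, zpow_neg, rv_inv, zpow_natCast, zpow_natCast, h]

omit [DecidableEq ι] in
lemma th_zpow (j : ι) (m : ℤ) : th (xx j ^ m) = xx j ^ (2 * m) := by
  rw [th, rv_zpow, rv_of, ← zpow_add]
  congr 1
  ring

omit [DecidableEq ι] in
lemma Tri_congr {S0 : Set ι} {o : ι → Bool} {v v' : ι → FreeGroup ι} :
    ∀ {js : List ι}, (∀ i ∈ js, v' i = v i) → Tri S0 o v js → Tri S0 o v' js := by
  intro js
  induction js with
  | nil => intro _ _; trivial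
  | cons j js ih =>
    intro h ht
    refine ⟨fun ho => ?_, ih (fun i hi => h i (List.mem_cons_of_mem _ hi)) ht.2⟩
    rw [h j List.mem_cons_self]
    exact ht.1 ho

theorem stage1 {D : Subgroup (FreeGroup ι)} [D.Normal] (hD0 : gam (FreeGroup ι) 2 ≤ D)
    (hD1 : ∀ c ∈ gam (FreeGroup ι) 1, c ^ 2 ∈ D) (hDg : D ≤ gam (FreeGroup ι) 1) (S0 : Set ι)
    (o : ι → Bool) : ∀ js : List ι, js.Nodup → (∀ j ∈ js, j ∉ S0) →
    (∀ j ∈ js, o j = true → ∀ f : FreeGroup ι, ⁅f, xx j⁆ ∈ D) →
    ∀ f ∈ Fsub S0 js,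
    (∀ j ∈ js, (o j = true → parj j f = Multiplicative.ofAdd 1) ∧ (o j = false → parj j f = 1)) →
    ∃ v : ι → FreeGroup ι, Tri S0 o v js ∧ ∃ f0 ∈ Fsub S0 [], ∃ u : FreeGroup ι,
      (f : FreeGroup ι ⧸ D) = (((js.map (AA o v)).prod * f0 * th u : FreeGroup ι) : FreeGroup ι ⧸ D) := by
  intro js
  induction js with
  | nil =>
    intro _ _ _ f hf _
    exact ⟨fun _ => 1, trivial, f, hf, 1, by simp [th_one]⟩
  | cons j js ih =>
    intro hnd hdis hD2 f hf hpar
    have hj : j ∉ js := (List.nodup_cons.mp hnd).1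
    have hj0 : j ∉ S0 := hdis j List.mem_cons_self
    obtain ⟨k, f', f'', hf', hf'', e⟩ := decomp hD0 S0 j js hf
    have hz := hDg (QuotientGroup.eq.mp e)
    have hp : ∀ i, parj i f = (parj i (xx j)) ^ k * parj i f' := by
      intro i
      have h1 := hom_gam_one (parj i) hz
      rw [map_mul, map_inv, inv_mul_eq_one, map_mul, map_mul, map_zpow, map_commutatorElement,
        commutatorElement_def, mul_inv_cancel_comm, mul_inv_cancel, mul_one] at h1
      exact h1
    have hfj : parj j f' = 1 := parj_Fsub hj0 hj hf'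
    have hpj : parj j f = (Multiplicative.ofAdd (1 : ZMod 2)) ^ k := by
      rw [hp j, hfj, mul_one, parj_self]
    obtain ⟨v0, hv0, f0, hf0, u, e0⟩ := ih (List.nodup_cons.mp hnd).2
      (fun i hi => hdis i (List.mem_cons_of_mem _ hi))
      (fun i hi => hD2 i (List.mem_cons_of_mem _ hi)) f' hf' (by
        intro i hi
        have hij : j ≠ i := by rintro rfl; exact hj hi
        have h1 : parj i f = parj i f' := by rw [hp i, parj_ne hij, one_zpow, one_mul]
        rw [← h1]
        exact hpar i (List.mem_cons_of_mem _ hi))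
    have hcon : ∀ c : FreeGroup ι, js.map (AA o (Function.update v0 j c)) = js.map (AA o v0) := by
      intro c
      apply List.map_congr_left
      intro i hi
      have hij : i ≠ j := by rintro rfl; exact hj hi
      rw [AA, AA, pp, pp, Function.update_of_ne hij]
    have htri : ∀ c : FreeGroup ι, Tri S0 o (Function.update v0 j c) js := by
      intro c
      refine Tri_congr (fun i hi => ?_) hv0
      have hij : i ≠ j := by rintro rfl; exact hj hi
      rw [Function.update_of_ne hij]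
    have hcen := fun a b => th_central hD0 hD1 a b
    cases ho : o j
    · -- even case
      have h1 := (hpar j List.mem_cons_self).2 ho
      obtain ⟨m, hm | hm⟩ := Int.even_or_odd' k
      swap
      · exfalso
        rw [hpj, hm, zpow_add, zpow_mul, zpow_one] at h1
        have h2 : (Multiplicative.ofAdd (1 : ZMod 2)) ^ (2 : ℤ) = 1 := mz_sq _
        rw [h2, one_zpow, one_mul] at h1
        exact absurd h1 (by decide)
      obtain ⟨c, hc⟩ : ∃ c, c = xx j * f'' := ⟨_, rfl⟩
      refine ⟨Function.update v0 j c, ⟨fun _ => ?_, htri c⟩, f0, hf0, u * (c⁻¹ * xx j ^ m), ?_⟩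
      · rw [Function.update_self, hc, inv_mul_cancel_left]
        exact hf''
      · rw [List.map_cons, List.prod_cons, hcon c]
        have hA := AA_even hD0 (o := o) (v := Function.update v0 j c) ho (f := f'')
          (by rw [Function.update_self, hc])
        rw [Function.update_self] at hA
        rw [e, hm, ← th_zpow]
        simp only [QuotientGroup.mk_mul] at e0 ⊢
        rw [e0, hA, th_mul hD0 hD1 u (c⁻¹ * xx j ^ m), th_mul hD0 hD1 c⁻¹ (xx j ^ m), th_inv hD0 hD1 c]
        -- rearrange central factors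
        have c1 : ∀ a : FreeGroup ι ⧸ D, (th (xx j ^ m) : FreeGroup ι ⧸ D) * a = a * (th (xx j ^ m) : FreeGroup ι) := by
          intro a; obtain ⟨a', rfl⟩ := QuotientGroup.mk_surjective a; exact hcen _ _
        have c2 : ∀ a : FreeGroup ι ⧸ D, (th c : FreeGroup ι ⧸ D) * a = a * (th c : FreeGroup ι) := by
          intro a; obtain ⟨a', rfl⟩ := QuotientGroup.mk_surjective a; exact hcen _ _
        generalize ((th (xx j ^ m) : FreeGroup ι) : FreeGroup ι ⧸ D) = t1 at c1 ⊢
        generalize ((th c : FreeGroup ι) : FreeGroup ι ⧸ D) = t2 at c2 ⊢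
        generalize ((⁅xx j, f''⁆ : FreeGroup ι) : FreeGroup ι ⧸ D) = w at *
        generalize (((js.map (AA o v0)).prod : FreeGroup ι) : FreeGroup ι ⧸ D) = P at *
        generalize ((f0 : FreeGroup ι) : FreeGroup ι ⧸ D) = F0 at *
        generalize ((th u : FreeGroup ι) : FreeGroup ι ⧸ D) = U at *
        calc t1 * w * (P * F0 * U) = w * (P * F0 * U) * t1 := by rw [mul_assoc, c1]
          _ = w * (t2 * t2⁻¹) * (P * F0 * U) * t1 := by rw [mul_inv_cancel, mul_one]
          _ = w * t2 * (t2⁻¹ * (P * F0 * U)) * t1 := by simp only [mul_assoc]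
          _ = w * t2 * (P * F0 * U * t2⁻¹) * t1 := by
            congr 2
            rw [inv_mul_eq_iff_eq_mul, ← mul_assoc, c2, mul_inv_cancel_right]
          _ = w * t2 * P * F0 * (U * (t2⁻¹ * t1)) := by simp only [mul_assoc]
    · -- odd case
      have h1 := (hpar j List.mem_cons_self).1 ho
      obtain ⟨m, hm | hm⟩ := Int.even_or_odd' k
      · exfalso
        rw [hpj, hm, zpow_mul] at h1
        have h2 : (Multiplicative.ofAdd (1 : ZMod 2)) ^ (2 : ℤ) = 1 := mz_sq _
        rw [h2, one_zpow] at h1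
        exact absurd h1 (by decide)
      refine ⟨Function.update v0 j 1, ⟨fun h => by rw [ho] at h; exact absurd h (by simp), htri 1⟩,
        f0, hf0, u * (xx j ^ m), ?_⟩
      rw [List.map_cons, List.prod_cons, hcon 1, AA_odd ho]
      have h3 : ((⁅xx j, f''⁆ : FreeGroup ι) : FreeGroup ι ⧸ D) = 1 := by
        rw [QuotientGroup.eq_one_iff, ← commutatorElement_inv]
        exact inv_mem (hD2 j List.mem_cons_self ho f'')
      rw [e, hm, add_comm, zpow_add, zpow_one, ← th_zpow]
      simp only [QuotientGroup.mk_mul] at e0 ⊢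
      rw [e0, h3, th_mul hD0 hD1]
      have c1 : ∀ a : FreeGroup ι ⧸ D, (th (xx j ^ m) : FreeGroup ι ⧸ D) * a = a * (th (xx j ^ m) : FreeGroup ι) := by
        intro a; obtain ⟨a', rfl⟩ := QuotientGroup.mk_surjective a; exact hcen _ _
      rw [mul_one, mul_assoc, c1]
      simp only [mul_assoc]

omit [DecidableEq ι] in
lemma str_exists (o : ι → Bool) (v : ι → FreeGroup ι) {β B : FreeGroup ι} (hB : Pal B)
    (hβ : β⁻¹ * B ∈ Phi (FreeGroup ι)) : ∀ js : List ι, ∃ bs, Str β (LL o v js) bs ∧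
      bs.prod = (js.map (AA o v)).prod * B := by
  intro js
  induction js with
  | nil => exact ⟨[B], ⟨B, rfl, hB, hβ⟩, by simp⟩
  | cons j js ih =>
    obtain ⟨bs, h1, h2⟩ := ih
    refine ⟨xx j :: pp o v j :: bs, ⟨xx j, pp o v j, bs, rfl, Pal.of j, ?_, ?_, ?_, h1⟩, ?_⟩
    · rw [pp]
      split_ifs
      · exact Pal.one
      · have := (Pal.of j).inv.conj (rv (v j))
        rwa [rv_rv] at this
    · rw [inv_mul_cancel]; exact one_mem _
    · change (kk o v j)⁻¹ * (xx j * pp o v j) ∈ gam (FreeGroup ι) 1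
      rw [kk, pp]
      split_ifs
      · rw [mul_one, inv_mul_cancel]; exact one_mem _
      · have e1 : (v j ^ 2)⁻¹ * (xx j * (rv (v j) * (xx j)⁻¹ * v j)) =
            (v j)⁻¹ * ((v j)⁻¹ * (⁅xx j, rv (v j)⁆ * (v j * ((v j)⁻¹ * rv (v j)))) * (v j)⁻¹⁻¹) := by
          rw [commutatorElement_def]; group
        have e2 : (v j)⁻¹ * ((v j)⁻¹ * (⁅xx j, rv (v j)⁆ * (v j * ((v j)⁻¹ * rv (v j)))) * (v j)⁻¹⁻¹) =
            ((v j)⁻¹ ^ 2 * ⁅xx j, rv (v j)⁆ * ((v j)⁻¹ ^ 2)⁻¹) * ((v j)⁻¹ * ((v j)⁻¹ * rv (v j)) * (v j)⁻¹⁻¹) := by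
          group
        rw [e1, e2]
        exact mul_mem ((gam_normal 1).conj_mem _ (comm_mem (k := 0) (mem_top _) _) _)
          ((gam_normal 1).conj_mem _ (rv_mod _) _)
    · rw [List.prod_cons, List.prod_cons, h2, List.map_cons, List.prod_cons, AA]
      simp only [mul_assoc]

omit [DecidableEq ι] in
/-- Combination of both stages. -/
theorem level2_of {S0 : Set ι} (hS0 : S0.Subsingleton) {o : ι → Bool} {v : ι → FreeGroup ι}
    {js : List ι} (ht : Tri S0 o v js) (htop : Fsub S0 js = ⊤) {β B g : FreeGroup ι} (hB : Pal B)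
    (hβ : β⁻¹ * B ∈ Phi (FreeGroup ι))
    (hg : (g : FreeGroup ι ⧸ Dsub o js) = (((js.map (AA o v)).prod * B : FreeGroup ι) : FreeGroup ι ⧸ Dsub o js)) :
    ∃ bs, Str β (LL o v js) bs ∧ (bs.prod : FreeGroup ι ⧸ gam (FreeGroup ι) 2) = g := by
  obtain ⟨bs, h1, h2⟩ := str_exists o v hB hβ js
  rw [← h2] at hg
  have hz : bs.prod⁻¹ * g ∈ Dsub o js := QuotientGroup.eq.mp hg.symm
  have hz' := Dsub_le_Tsub hS0 β js ht htop hz
  obtain ⟨g', ⟨bs', hbs', rfl⟩, e⟩ := (hz'.2 bs.prod ⟨bs, h1, rfl⟩).1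
  refine ⟨bs', hbs', ?_⟩
  rw [e, ← QuotientGroup.mk_mul, mul_inv_cancel_left]

end Pool.Agent.Work.MP_e99d20_al
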