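import Pool.Agent.Work.MP_e99d20_al.Stage1b

set_option autoImplicit false

namespace Pool.Agent.Work.MP_e99d20_al

open Subgroup
open scoped commutatorElement

variable {ι : Type*}

/-- `{f | f² ∈ K}` for `K ≥ gam 1`. -/
def Sq (K : Subgroup (FreeGroup ι)) (hK : gam (FreeGroup ι) 1 ≤ K) : Subgroup (FreeGroup ι) where
  carrier := {f | f ^ 2 ∈ K}
  mul_mem' := by
    intro a b ha hb
    change (a * b) ^ 2 ∈ K
    have h1 : (a * b) ^ 2 = a * a * ⁅a⁻¹, b⁆ * (b * b) := by
      rw [sq, commutatorElement_def]; group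
    have h2 : ⁅a⁻¹, b⁆ ∈ K := hK (comm_mem (k := 0) (mem_top _) _)
    rw [h1, ← sq, ← sq]
    exact mul_mem (mul_mem ha h2) hb
  one_mem' := by
    change (1 : FreeGroup ι) ^ 2 ∈ K
    rw [one_pow]; exact one_mem _
  inv_mem' := by
    intro a ha
    change a⁻¹ ^ 2 ∈ K
    rw [inv_pow]
    exact inv_mem ha

lemma str_ne_nil {β : FreeGroup ι} {L : List (FreeGroup ι × FreeGroup ι)} {bs : List (FreeGroup ι)}
    (h : Str β L bs) : ∃ b bs', bs = b :: bs' := by
  cases L with
  | nil => obtain ⟨B, rfl, _⟩ := h; exact ⟨B, [], rfl⟩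
  | cons a L => obtain ⟨p, p', bs', rfl, _⟩ := h; exact ⟨p, _, rfl⟩

lemma str_snd {β : FreeGroup ι} {K : Subgroup (FreeGroup ι)} (hK : gam (FreeGroup ι) 1 ≤ K) :
    ∀ {L : List (FreeGroup ι × FreeGroup ι)} {bs : List (FreeGroup ι)}, Str β L bs →
    (∀ h ∈ adj bs, h ∈ K) → ∀ a ∈ L, a.2 ∈ K := by
  intro L
  induction L with
  | nil => intro bs _ _ a ha; simp at ha
  | cons a L ih =>
    intro bs hs hadj a' ha'
    obtain ⟨p, p', bs', rfl, h1, h2, h3, h4, h5⟩ := hs
    obtain ⟨b, bs'', rfl⟩ := str_ne_nil h5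
    rcases List.mem_cons.mp ha' with rfl | h
    · have h6 : p * p' ∈ K := hadj _ (Or.inl rfl)
      have h7 : a'.2 = (p * p') * (a'.2⁻¹ * (p * p'))⁻¹ := by group
      rw [h7]
      exact mul_mem h6 (inv_mem (hK h4))
    · exact ih h5 (fun x hx => hadj x (Or.inr (Or.inr hx))) a' h

lemma str_all {β : FreeGroup ι} {K : Subgroup (FreeGroup ι)} (hK : Phi (FreeGroup ι) ≤ K)
    (hβ : β ∈ K) :
    ∀ {L : List (FreeGroup ι × FreeGroup ι)} {bs : List (FreeGroup ι)}, Str β L bs →
    (∀ h ∈ adj bs, h ∈ K) → (∀ b ∈ bs, b ∈ K) ∧ ∀ a ∈ L, a.1 ∈ K := by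
  intro L
  induction L with
  | nil =>
    intro bs hs _
    obtain ⟨B, rfl, _, hB⟩ := hs
    refine ⟨fun b hb => ?_, fun a ha => by simp at ha⟩
    rw [List.mem_singleton] at hb
    subst hb
    have : b = β * (β⁻¹ * b) := by group
    rw [this]
    exact mul_mem hβ (hK hB)
  | cons a L ih =>
    intro bs hs hadj
    obtain ⟨p, p', bs', rfl, h1, h2, h3, h4, h5⟩ := hs
    obtain ⟨b, bs'', rfl⟩ := str_ne_nil h5
    obtain ⟨ih1, ih2⟩ := ih h5 (fun x hx => hadj x (Or.inr (Or.inr hx)))
    have hb : b ∈ K := ih1 b List.mem_cons_self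
    have hp'b : p' * b ∈ K := hadj _ (Or.inr (Or.inl rfl))
    have hp' : p' ∈ K := by
      have := mul_mem hp'b (inv_mem hb)
      rwa [mul_inv_cancel_right] at this
    have hpp' : p * p' ∈ K := hadj _ (Or.inl rfl)
    have hp : p ∈ K := by
      have := mul_mem hpp' (inv_mem hp')
      rwa [mul_inv_cancel_right] at this
    refine ⟨?_, ?_⟩
    · intro x hx
      rcases List.mem_cons.mp hx with rfl | hx
      · exact hp
      · rcases List.mem_cons.mp hx with rfl | hx
        · exact hp'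
        · exact ih1 x hx
    · intro x hx
      rcases List.mem_cons.mp hx with rfl | hx
      · have : x.1 = p * (x.1⁻¹ * p)⁻¹ := by group
        rw [this]
        exact mul_mem hp (inv_mem (hK h3))
      · exact ih2 x hx

theorem gen_of_str {o : ι → Bool} {v : ι → FreeGroup ι} {js : List ι} (ht : Tri ∅ o v js)
    (htop : Fsub ∅ js = ⊤) {bs : List (FreeGroup ι)} (hs : Str 1 (LL o v js) bs) : Gen bs := by
  intro K hK hadj
  have h2 := str_snd hK hs hadj
  have hkk : ∀ j ∈ js, kk o v j ∈ K := by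
    intro j hj
    exact h2 (xx j, kk o v j) (List.mem_map.mpr ⟨j, hj, rfl⟩)
  have hsq : Sq K hK = ⊤ := by
    rw [eq_top_iff, ← htop]
    apply Tri_le (K := Sq K hK) (by intro s hs; exact absurd hs (by simp)) js ht
    · intro j hj ho
      have := hkk j hj
      rw [kk, if_pos ho] at this
      exact pow_mem this 2
    · intro j hj ho
      have := hkk j hj
      rw [kk, if_neg (by simp [ho])] at this
      exact this
  have hPhi : Phi (FreeGroup ι) ≤ K := by
    apply Phi_le hK
    intro f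
    have : f ∈ Sq K hK := by rw [hsq]; exact mem_top f
    exact this
  obtain ⟨_, h3⟩ := str_all hPhi (one_mem K) hs hadj
  rw [eq_top_iff, ← htop, Fsub, closure_le]
  rintro _ ⟨i, hi, rfl⟩
  rcases hi with hi | hi
  · exact absurd hi (by simp)
  · exact h3 (xx i, kk o v i) (List.mem_map.mpr ⟨i, hi, rfl⟩)

lemma str_len {β : FreeGroup ι} : ∀ {L : List (FreeGroup ι × FreeGroup ι)}
    {bs : List (FreeGroup ι)}, Str β L bs → bs.length = 2 * L.length + 1 := by
  intro L
  induction L with
  | nil => intro bs hs; obtain ⟨B, rfl, _⟩ := hs; simp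
  | cons a L ih =>
    intro bs hs
    obtain ⟨p, p', bs', rfl, _, _, _, _, h5⟩ := hs
    have := ih h5
    simp only [List.length_cons]
    omega

lemma str_pal {β : FreeGroup ι} : ∀ {L : List (FreeGroup ι × FreeGroup ι)}
    {bs : List (FreeGroup ι)}, Str β L bs → ∀ b ∈ bs, Pal b := by
  intro L
  induction L with
  | nil =>
    intro bs hs b hb
    obtain ⟨B, rfl, h, _⟩ := hs
    rw [List.mem_singleton] at hb
    subst hb
    exact h
  | cons a L ih =>
    intro bs hs b hb
    obtain ⟨p, p', bs', rfl, h1, h2, _, _, h5⟩ := hs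
    rcases List.mem_cons.mp hb with rfl | hb
    · exact h1
    · rcases List.mem_cons.mp hb with rfl | hb
      · exact h2
      · exact ih h5 b hb

lemma mem_SL_self {bs : List (FreeGroup ι)} (h : ∀ b ∈ bs, Pal b) : bs.prod ∈ SL bs := by
  refine ⟨bs, ?_, rfl⟩
  induction bs with
  | nil => exact List.Forall₂.nil
  | cons b bs ih =>
    refine List.Forall₂.cons ⟨h b List.mem_cons_self, ?_⟩
      (ih (fun b' hb' => h b' (List.mem_cons_of_mem _ hb')))
    rw [inv_mul_cancel]; exact one_mem _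

lemma SL_list {bs : List (FreeGroup ι)} {g : FreeGroup ι} (h : g ∈ SL bs) :
    ∃ l : List (FreeGroup ι), l.length = bs.length ∧ (∀ p ∈ l, Pal p) ∧ l.prod = g := by
  obtain ⟨l, hl, rfl⟩ := h
  refine ⟨l, hl.length_eq.symm, ?_, rfl⟩
  induction hl with
  | nil => intro p hp; simp at hp
  | cons h1 h2 ih =>
    intro p hp
    rcases List.mem_cons.mp hp with rfl | hp
    · exact h1.1
    · exact ih p hp

/-- Parities of an element. -/
noncomputable def oo [DecidableEq ι] (g : FreeGroup ι) (j : ι) : Bool := decide (parj j g ≠ 1)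

lemma oo_spec [DecidableEq ι] (g : FreeGroup ι) (j : ι) :
    (oo g j = true → parj j g = Multiplicative.ofAdd 1) ∧ (oo g j = false → parj j g = 1) := by
  have h : ∀ a : Multiplicative (ZMod 2), a = 1 ∨ a = Multiplicative.ofAdd 1 := by decide
  constructor
  · intro ho
    simp only [oo, ne_eq, decide_not, Bool.not_eq_true', decide_eq_false_iff_not] at ho
    exact (h _).resolve_left ho
  · intro ho
    simp only [oo, ne_eq, decide_not, Bool.not_eq_false', decide_eq_true_eq] at ho
    exact ho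

lemma Fsub_top (S0 : Set ι) (js : List ι) (h : ∀ i, i ∈ S0 ∨ i ∈ js) : Fsub S0 js = ⊤ := by
  rw [eq_top_iff]
  intro w hw
  clear hw
  induction w using FreeGroup.induction_on with
  | C1 => exact one_mem _
  | of i => exact subset_closure ⟨i, h i, rfl⟩
  | inv_of i ih => exact inv_mem ih
  | mul x y hx hy => exact mul_mem hx hy

/-- **Upper bound for all classes**: every element is, modulo any term of the lower central
series, a product of `2n+1` palindromes. -/
theorem upper_all [Fintype ι] [DecidableEq ι] (g : FreeGroup ι) (r : ℕ) :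
    ∃ l : List (FreeGroup ι), l.length = 2 * Fintype.card ι + 1 ∧ (∀ p ∈ l, Pal p) ∧
      (l.prod : FreeGroup ι ⧸ gam (FreeGroup ι) r) = g := by
  set js : List ι := (Finset.univ : Finset ι).toList with hjs
  have hnd : js.Nodup := Finset.nodup_toList _
  have hmem : ∀ i, i ∈ js := fun i => Finset.mem_toList.mpr (Finset.mem_univ i)
  have htop : Fsub ∅ js = ⊤ := Fsub_top _ _ (fun i => Or.inr (hmem i))
  set o := oo g with ho
  obtain ⟨v, hv, f0, hf0, u, e⟩ := stage1 (gam_two_le_Dsub o js)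
    (fun c hc => sq_mem_Dsub o js hc) (Dsub_le_gam_one o js) ∅ o js hnd
    (fun j _ => by simp) (fun j hj h f => comm_mem_Dsub o js hj h f) g
    (by rw [htop]; exact mem_top g) (fun j _ => oo_spec g j)
  have hf1 : f0 = 1 := by
    have h0 : Fsub (∅ : Set ι) [] = ⊥ := by
      rw [Fsub]
      have : (xx '' (∅ ∪ {i | i ∈ ([] : List ι)}) : Set (FreeGroup ι)) = ∅ := by
        ext x; simp
      rw [this, Subgroup.closure_empty]
    rw [h0] at hf0
    exact mem_bot.mp hf0
  rw [hf1, mul_one] at e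
  obtain ⟨bs, hbs, e2⟩ := level2_of (S0 := ∅) Set.subsingleton_empty hv htop (β := 1) (B := th u)
    (Pal.mul_rv u) (by rw [inv_one, one_mul]; exact mul_rv_mem_Phi u) e
  have hgen := gen_of_str hv htop hbs
  obtain ⟨g', hg', e3⟩ := lift_all hgen ⟨bs.prod, mem_SL_self (str_pal hbs), e2⟩ r
  obtain ⟨l, hl, hp, rfl⟩ := SL_list hg'
  refine ⟨l, ?_, hp, ?_⟩
  · rw [hl, str_len hbs, LL, List.length_map, hjs, Finset.length_toList, Finset.card_univ]
  · have h1 : l.prod⁻¹ * g ∈ gam (FreeGroup ι) (r + 2) := QuotientGroup.eq.mp e3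
    exact QuotientGroup.eq.mpr (gam_anti (by omega) h1)

end Pool.Agent.Work.MP_e99d20_al
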