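import Pool.Agent.Work.MP_e99d20_al.Level3

set_option autoImplicit false

namespace Pool.Agent.Work.MP_e99d20_al

open Subgroup
open scoped commutatorElement

variable {ι : Type*}

lemma str_last {β : FreeGroup ι} : ∀ {L : List (FreeGroup ι × FreeGroup ι)}
    {bs : List (FreeGroup ι)}, Str β L bs → ∃ b ∈ bs, β⁻¹ * b ∈ Phi (FreeGroup ι) := by
  intro L
  induction L with
  | nil => intro bs hs; obtain ⟨B, rfl, _, h⟩ := hs; exact ⟨B, List.mem_singleton.mpr rfl, h⟩
  | cons a L ih =>
    intro bs hs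
    obtain ⟨p, p', bs', rfl, _, _, _, _, h5⟩ := hs
    obtain ⟨b, hb, h⟩ := ih h5
    exact ⟨b, List.mem_cons_of_mem _ (List.mem_cons_of_mem _ hb), h⟩

lemma Fsub_singleton (s : ι) {f : FreeGroup ι} (hf : f ∈ Fsub {s} []) : ∃ k : ℤ, f = xx s ^ k := by
  have h0 : Fsub ({s} : Set ι) [] = zpowers (xx s) := by
    rw [Fsub]
    have : (xx '' ({s} ∪ {i | i ∈ ([] : List ι)}) : Set (FreeGroup ι)) = {xx s} := by
      ext x; simp
    rw [this, zpowers_eq_closure]
  rw [h0] at hf
  obtain ⟨k, hk⟩ := mem_zpowers_iff.mp hf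
  exact ⟨k, hk.symm⟩

variable [DecidableEq ι]

lemma parj_AA (o : ι → Bool) (v : ι → FreeGroup ι) {s j : ι} (h : j ≠ s) :
    parj s (AA o v j) = 1 := by
  rw [AA, pp]
  split_ifs
  · rw [mul_one, parj_ne h]
  · rw [map_mul, map_mul, map_mul, map_inv, parj_rv, parj_ne h, inv_one, one_mul, mul_one, ← sq,
      mz_sq]

lemma parj_AAprod (o : ι → Bool) (v : ι → FreeGroup ι) {s : ι} :
    ∀ {js : List ι}, (∀ j ∈ js, j ≠ s) → parj s (js.map (AA o v)).prod = 1 := by
  intro js
  induction js with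
  | nil => intro _; simp
  | cons j js ih =>
    intro h
    rw [List.map_cons, List.prod_cons, map_mul, parj_AA o v (h j List.mem_cons_self), one_mul]
    exact ih (fun i hi => h i (List.mem_cons_of_mem _ hi))

lemma parj_th (s : ι) (u : FreeGroup ι) : parj s (th u) = 1 := by
  rw [th, map_mul, parj_rv, ← sq, mz_sq]

omit [DecidableEq ι] in
/-- The final step: level three. -/
lemma finish {s : ι} {o : ι → Bool} {v : ι → FreeGroup ι} {js : List ι}
    (hjs : ∀ j, j ≠ s → j ∈ js) {β : FreeGroup ι} {bs : List (FreeGroup ι)} {g : FreeGroup ι}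
    (hs : Str β (LL o v js) bs) (h0 : ∃ b ∈ bs, b ∈ Phi (FreeGroup ι))
    (e : (bs.prod : FreeGroup ι ⧸ gam (FreeGroup ι) 2) = g) :
    ∃ l : List (FreeGroup ι), l.length = 2 * js.length + 1 ∧ (∀ p ∈ l, Pal p) ∧
      (l.prod : FreeGroup ι ⧸ gam (FreeGroup ι) 3) = g := by
  have h1 : bs.prod⁻¹ * g ∈ gam (FreeGroup ι) 2 := QuotientGroup.eq.mp e
  obtain ⟨g', hg', e3⟩ := ((level3 hjs hs h0 h1).2 bs.prod (mem_SL_self (str_pal hs))).1
  obtain ⟨l, hl, hp, rfl⟩ := SL_list hg'
  refine ⟨l, ?_, hp, ?_⟩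
  · rw [hl, str_len hs, LL, List.length_map]
  · rw [e3, ← QuotientGroup.mk_mul, mul_inv_cancel_left]

/-- **Upper bound for class at most 3**. -/
theorem upper_low [Fintype ι] (hn : 2 ≤ Fintype.card ι) (g : FreeGroup ι) :
    ∃ l : List (FreeGroup ι), l.length = 2 * Fintype.card ι - 1 ∧ (∀ p ∈ l, Pal p) ∧
      (l.prod : FreeGroup ι ⧸ gam (FreeGroup ι) 3) = g := by
  -- choose the special index
  obtain ⟨s, hs⟩ : ∃ s : ι, parj s g = 1 ∨ ∀ j, oo g j = true := by
    by_cases h : ∃ s, parj s g = 1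
    · obtain ⟨s, hs⟩ := h; exact ⟨s, Or.inl hs⟩
    · have hne : Nonempty ι := Fintype.card_pos_iff.mp (by omega)
      obtain ⟨s⟩ := hne
      refine ⟨s, Or.inr fun j => ?_⟩
      by_contra hj
      rw [Bool.not_eq_true] at hj
      exact h ⟨j, (oo_spec g j).2 hj⟩
  set js : List ι := (Finset.univ.erase s : Finset ι).toList with hjs
  have hnd : js.Nodup := Finset.nodup_toList _
  have hmem : ∀ i, i ≠ s → i ∈ js := fun i hi =>
    Finset.mem_toList.mpr (Finset.mem_erase.mpr ⟨hi, Finset.mem_univ i⟩)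
  have hmem' : ∀ i ∈ js, i ≠ s := fun i hi => (Finset.mem_erase.mp (Finset.mem_toList.mp hi)).1
  have hlen : 2 * js.length + 1 = 2 * Fintype.card ι - 1 := by
    rw [hjs, Finset.length_toList, Finset.card_erase_of_mem (Finset.mem_univ s), Finset.card_univ]
    omega
  have htop : Fsub {s} js = ⊤ := Fsub_top _ _ (fun i => by
    by_cases hi : i = s
    · exact Or.inl hi
    · exact Or.inr (hmem i hi))
  set o := oo g with ho
  obtain ⟨v, hv, f0, hf0, u, e⟩ := stage1 (gam_two_le_Dsub o js)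
    (fun c hc => sq_mem_Dsub o js hc) (Dsub_le_gam_one o js) {s} o js hnd
    (fun j hj => by simpa using hmem' j hj) (fun j hj h f => comm_mem_Dsub o js hj h f) g
    (by rw [htop]; exact mem_top g) (fun j _ => oo_spec g j)
  obtain ⟨k, rfl⟩ := Fsub_singleton s hf0
  have hpar : parj s g = (Multiplicative.ofAdd (1 : ZMod 2)) ^ k := by
    have h1 := hom_gam_one (parj s) (Dsub_le_gam_one o js (QuotientGroup.eq.mp e))
    rw [map_mul, map_inv, inv_mul_eq_one, map_mul, map_mul, parj_AAprod o v hmem', one_mul,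
      parj_th, mul_one, map_zpow, parj_self] at h1
    exact h1
  have hcen := fun a b => th_central (gam_two_le_Dsub o js) (fun c hc => sq_mem_Dsub o js hc) a b
  have htm := fun a b => th_mul (gam_two_le_Dsub o js) (fun c hc => sq_mem_Dsub o js hc) a b
  rw [← hlen]
  rcases Int.even_or_odd' k with ⟨m, hm | hm⟩
  · -- even
    have hB : Pal (th (xx s ^ m * u)) := Pal.mul_rv _
    have e' : (g : FreeGroup ι ⧸ Dsub o js) =
        (((js.map (AA o v)).prod * th (xx s ^ m * u) : FreeGroup ι) : FreeGroup ι ⧸ Dsub o js) := by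
      rw [e, hm, ← th_zpow]
      simp only [QuotientGroup.mk_mul] at htm ⊢
      rw [htm (xx s ^ m) u, mul_assoc]
    obtain ⟨bs, hbs, e2⟩ := level2_of (S0 := {s}) Set.subsingleton_singleton hv htop (β := 1) hB
      (by rw [inv_one, one_mul]; exact mul_rv_mem_Phi _) e'
    obtain ⟨b, hb, hb'⟩ := str_last hbs
    rw [inv_one, one_mul] at hb'
    exact finish hmem hbs ⟨b, hb, hb'⟩ e2
  · -- odd: then all coordinates are odd
    have hodd : parj s g ≠ 1 := by
      rw [hpar, hm, zpow_add, zpow_mul, zpow_one]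
      have h2 : (Multiplicative.ofAdd (1 : ZMod 2)) ^ (2 : ℤ) = 1 := mz_sq _
      rw [h2, one_zpow, one_mul]
      decide
    have hall : ∀ j, o j = true := hs.resolve_left hodd
    have hZ : Zr (Dsub o js) (xx s) = ⊤ := by
      apply top_of_gens
      intro j
      by_cases hj : j = s
      · subst hj
        rw [mem_Zr, commutatorElement_self]
        exact one_mem _
      · exact comm_mem_Dsub o js (hmem j hj) (hall j) (xx s)
    set w := xx s ^ m * u with hw
    have hB : Pal (w * xx s * rv w) := (Pal.of s).conj w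
    have e' : (g : FreeGroup ι ⧸ Dsub o js) =
        (((js.map (AA o v)).prod * (w * xx s * rv w) : FreeGroup ι) : FreeGroup ι ⧸ Dsub o js) := by
      have h1 : w * xx s * rv w = ⁅w, xx s⁆ * (xx s * th w) := by
        rw [commutatorElement_def, th]; group
      have h2 : ((⁅w, xx s⁆ : FreeGroup ι) : FreeGroup ι ⧸ Dsub o js) = 1 := by
        rw [QuotientGroup.eq_one_iff, ← commutatorElement_inv]
        have : w ∈ Zr (Dsub o js) (xx s) := by rw [hZ]; exact mem_top w
        exact inv_mem this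
      rw [e, hm, add_comm, zpow_add, zpow_one, ← th_zpow, h1]
      simp only [QuotientGroup.mk_mul] at htm ⊢
      rw [h2, hw, htm (xx s ^ m) u, one_mul]
      simp only [mul_assoc]
    obtain ⟨bs, hbs, e2⟩ := level2_of (S0 := {s}) Set.subsingleton_singleton hv htop (β := xx s) hB
      (conj_Phi (by rw [inv_mul_cancel]; exact one_mem _) w) e'
    refine finish hmem hbs ?_ e2
    -- a type zero entry
    cases hjs' : js with
    | nil =>
      exfalso
      rw [hjs'] at hlen
      simp at hlen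
      omega
    | cons j js' =>
      rw [hjs', LL, List.map_cons] at hbs
      obtain ⟨p, p', bs', rfl, h1, h2, h3, h4, h5⟩ := hbs
      refine ⟨p', by simp, ?_⟩
      have h6 : p' = ((xx j)⁻¹ * p)⁻¹ * ((xx j)⁻¹ * (p * p')) := by group
      have h7 : (xx j)⁻¹ * (p * p') ∈ gam (FreeGroup ι) 1 := by
        have : kk o v j = xx j := by rw [kk, if_pos (hall j)]
        rw [← this]
        exact h4
      rw [h6]
      exact mul_mem (inv_mem h3) (gam_one_le_Phi h7)

end Pool.Agent.Work.MP_e99d20_al
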