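import Pool.Agent.Work.MP_e99d20_al.Gam

set_option autoImplicit false

namespace Pool.Agent.Work.MP_e99d20_al

open Subgroup
open scoped commutatorElement

/-- The wreath product of `D` with a group of order two. -/
@[ext] structure Wr (D : Type) where
  /-- the top component -/
  e : Bool
  /-- the base component -/
  f : Bool → D

namespace Wr

variable {D : Type} [Group D]

instance : Mul (Wr D) := ⟨fun x y => ⟨xor x.e y.e, fun c => x.f c * y.f (xor c x.e)⟩⟩
instance : One (Wr D) := ⟨⟨false, fun _ => 1⟩⟩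
instance : Inv (Wr D) := ⟨fun x => ⟨x.e, fun c => (x.f (xor c x.e))⁻¹⟩⟩

@[simp] lemma mul_e (x y : Wr D) : (x * y).e = xor x.e y.e := rfl
@[simp] lemma mul_f (x y : Wr D) (c : Bool) : (x * y).f c = x.f c * y.f (xor c x.e) := rfl
@[simp] lemma one_e : (1 : Wr D).e = false := rfl
@[simp] lemma one_f (c : Bool) : (1 : Wr D).f c = 1 := rfl
@[simp] lemma inv_e (x : Wr D) : (x⁻¹).e = x.e := rfl
@[simp] lemma inv_f (x : Wr D) (c : Bool) : (x⁻¹).f c = (x.f (xor c x.e))⁻¹ := rfl

instance : Group (Wr D) where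
  mul_assoc x y z := by
    ext c
    · simp
    · simp [mul_assoc]
  one_mul x := by ext c <;> simp
  mul_one x := by ext c <;> simp
  inv_mul_cancel x := by ext c <;> simp

/-- Conjugation of base elements. -/
lemma conj_f (w u : Wr D) (hu : u.e = false) (c : Bool) :
    (w * u * w⁻¹).f c = w.f c * u.f (xor c w.e) * (w.f c)⁻¹ := by
  simp [hu]

lemma conj_e (w u : Wr D) (hu : u.e = false) : (w * u * w⁻¹).e = false := by
  simp [hu]

/-- first term -/
def H1 (D : Type) [Group D] : Subgroup (Wr D) where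
  carrier := {x | x.e = false ∧ (x.f false)⁻¹ * x.f true ∈ center D}
  mul_mem' := by
    rintro x y ⟨hx, hx'⟩ ⟨hy, hy'⟩
    refine ⟨by simp [hx, hy], ?_⟩
    simp only [mul_f, hx, Bool.xor_false]
    have h1 : (x.f false * y.f false)⁻¹ * (x.f true * y.f true) =
        (y.f false)⁻¹ * ((x.f false)⁻¹ * x.f true) * (y.f false)⁻¹⁻¹ * ((y.f false)⁻¹ * y.f true) := by
      group
    rw [h1]
    exact mul_mem ((inferInstance : (center D).Normal).conj_mem _ hx' _) hy'
  one_mem' := by
    refine ⟨rfl, ?_⟩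
    simp only [one_f, inv_one, one_mul]
    exact one_mem _
  inv_mem' := by
    rintro x ⟨hx, hx'⟩
    refine ⟨by simp [hx], ?_⟩
    simp only [inv_f, hx, Bool.xor_false, inv_inv]
    have h1 : x.f false * (x.f true)⁻¹ =
        x.f false * ((x.f false)⁻¹ * x.f true)⁻¹ * (x.f false)⁻¹ := by
      group
    rw [h1]
    exact (inferInstance : (center D).Normal).conj_mem _ (inv_mem hx') _

/-- second term -/
def H2 (D : Type) [Group D] : Subgroup (Wr D) where
  carrier := {x | x.e = false ∧ ∀ c, x.f c ∈ center D}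
  mul_mem' := by
    rintro x y ⟨hx, hx'⟩ ⟨hy, hy'⟩
    refine ⟨by simp [hx, hy], fun c => ?_⟩
    rw [mul_f]
    exact mul_mem (hx' _) (hy' _)
  one_mem' := ⟨rfl, fun c => one_mem _⟩
  inv_mem' := by
    rintro x ⟨hx, hx'⟩
    exact ⟨by simp [hx], fun c => inv_mem (hx' _)⟩

/-- third term -/
def H3 (D : Type) [Group D] : Subgroup (Wr D) where
  carrier := {x | x.e = false ∧ x.f false ∈ center D ∧ x.f true = x.f false}
  mul_mem' := by
    rintro x y ⟨hx, hx', hx''⟩ ⟨hy, hy', hy''⟩
    refine ⟨by simp [hx, hy], ?_, ?_⟩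
    · rw [mul_f, hx, Bool.xor_false]
      exact mul_mem hx' hy'
    · rw [mul_f, mul_f, hx, Bool.xor_false, Bool.xor_false, hx'', hy'']
  one_mem' := ⟨rfl, one_mem _, rfl⟩
  inv_mem' := by
    rintro x ⟨hx, hx', hx''⟩
    refine ⟨by simp [hx], ?_, ?_⟩
    · rw [inv_f, hx, Bool.xor_false]
      exact inv_mem hx'
    · rw [inv_f, inv_f, hx, Bool.xor_false, Bool.xor_false, hx'']

lemma gam_one_le (hc : ∀ a b : D, ⁅a, b⁆ ∈ center D) (hs : ∀ a : D, a * a ∈ center D) :
    gam (Wr D) 1 ≤ H1 D := by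
  rw [show gam (Wr D) 1 = ⁅(⊤ : Subgroup (Wr D)), ⊤⁆ from rfl, commutator_le]
  intro x _ y _
  refine ⟨?_, ?_⟩
  · rw [commutatorElement_def]
    simp only [mul_e, inv_e]
    cases x.e <;> cases y.e <;> rfl
  · -- computation in the abelianization
    let q := QuotientGroup.mk' (center D)
    have hq : ∀ a b : D, q a * q b = q b * q a := by
      intro a b
      have h := (QuotientGroup.eq_one_iff (N := center D) ⁅a, b⁆).mpr (hc a b)
      have h' : q ⁅a, b⁆ = 1 := h
      rw [map_commutatorElement, commutatorElement_eq_one_iff_mul_comm] at h'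
      exact h'
    have hq2 : ∀ a : D, q a * q a = 1 := by
      intro a
      rw [← map_mul]
      exact (QuotientGroup.eq_one_iff _).mpr (hs a)
    have hqi : ∀ a : D, (q a)⁻¹ = q a := fun a => inv_eq_of_mul_eq_one_left (hq2 a)
    have key : q ((⁅x, y⁆.f false)⁻¹ * ⁅x, y⁆.f true) = 1 := by
      rw [commutatorElement_def]
      simp only [mul_f, mul_e, inv_f, inv_e, map_mul, map_inv, mul_inv_rev, inv_inv, hqi]
      obtain ⟨xe, xf⟩ := x
      obtain ⟨ye, yf⟩ := y
      generalize hA : q (xf false) = A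
      generalize hB : q (xf true) = B
      generalize hC : q (yf false) = C
      generalize hE : q (yf true) = E
      have hAA : A * A = 1 := hA ▸ hq2 _
      have hBB : B * B = 1 := hB ▸ hq2 _
      have hCC : C * C = 1 := hC ▸ hq2 _
      have hEE : E * E = 1 := hE ▸ hq2 _
      have hBA : B * A = A * B := by rw [← hA, ← hB]; exact hq _ _
      have hCA : C * A = A * C := by rw [← hA, ← hC]; exact hq _ _
      have hEA : E * A = A * E := by rw [← hA, ← hE]; exact hq _ _
      have hCB : C * B = B * C := by rw [← hB, ← hC]; exact hq _ _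
      have hEB : E * B = B * E := by rw [← hB, ← hE]; exact hq _ _
      have hEC : E * C = C * E := by rw [← hC, ← hE]; exact hq _ _
      have hBA' : ∀ t, B * (A * t) = A * (B * t) := fun t => by rw [← mul_assoc, hBA, mul_assoc]
      have hCA' : ∀ t, C * (A * t) = A * (C * t) := fun t => by rw [← mul_assoc, hCA, mul_assoc]
      have hEA' : ∀ t, E * (A * t) = A * (E * t) := fun t => by rw [← mul_assoc, hEA, mul_assoc]
      have hCB' : ∀ t, C * (B * t) = B * (C * t) := fun t => by rw [← mul_assoc, hCB, mul_assoc]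
      have hEB' : ∀ t, E * (B * t) = B * (E * t) := fun t => by rw [← mul_assoc, hEB, mul_assoc]
      have hEC' : ∀ t, E * (C * t) = C * (E * t) := fun t => by rw [← mul_assoc, hEC, mul_assoc]
      have hAA' : ∀ t, A * (A * t) = t := fun t => by rw [← mul_assoc, hAA, one_mul]
      have hBB' : ∀ t, B * (B * t) = t := fun t => by rw [← mul_assoc, hBB, one_mul]
      have hCC' : ∀ t, C * (C * t) = t := fun t => by rw [← mul_assoc, hCC, one_mul]
      have hEE' : ∀ t, E * (E * t) = t := fun t => by rw [← mul_assoc, hEE, one_mul]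
      cases xe <;> cases ye <;>
        simp only [Bool.xor_false, Bool.xor_true, Bool.not_false, Bool.not_true, hA, hB, hC, hE,
          mul_assoc, hCA, hEA, hCB, hEB, hBA', hCA', hEA', hCB', hEB', hEC', hAA, hBB,
          hCC, hEE, hAA', hBB', mul_one]
    exact (QuotientGroup.eq_one_iff _).mp key

lemma gam_two_le (hc : ∀ a b : D, ⁅a, b⁆ ∈ center D) (hs : ∀ a : D, a * a ∈ center D) :
    gam (Wr D) 2 ≤ H2 D := by
  rw [show gam (Wr D) 2 = ⁅gam (Wr D) 1, (⊤ : Subgroup (Wr D))⁆ from rfl, commutator_le]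
  intro x hx y _
  obtain ⟨hxe, hx'⟩ := gam_one_le hc hs hx
  have hx2 : (x.f true)⁻¹ * x.f false ∈ center D := by
    have := inv_mem hx'
    rwa [mul_inv_rev, inv_inv] at this
  refine ⟨?_, fun c => ?_⟩
  · rw [commutatorElement_def]
    simp only [mul_e, inv_e, hxe]
    cases y.e <;> rfl
  · have h1 : ∀ u v w : D, v⁻¹ * w ∈ center D → v * u * w⁻¹ * u⁻¹ ∈ center D := by
      intro u v w h
      have h2 : v * u * w⁻¹ * u⁻¹ = ⁅v, u⁆ * (u * (v * (v⁻¹ * w)⁻¹ * v⁻¹) * u⁻¹) := by
        rw [commutatorElement_def]; group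
      rw [h2]
      exact mul_mem (hc _ _) ((inferInstance : (center D).Normal).conj_mem _
        ((inferInstance : (center D).Normal).conj_mem _ (inv_mem h) _) _)
    rw [commutatorElement_def]
    simp only [mul_f, mul_e, inv_f, inv_e, hxe, Bool.xor_false, Bool.false_xor]
    have h0 : ∀ v : D, v⁻¹ * v ∈ center D := fun v => by rw [inv_mul_cancel]; exact one_mem _
    cases c <;> cases y.e <;>
      simp only [Bool.xor_false, Bool.xor_true, Bool.not_false, Bool.not_true] <;>
      first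
        | exact h1 _ _ _ (h0 _)
        | exact h1 _ _ _ hx'
        | exact h1 _ _ _ hx2

lemma gam_three_le (hc : ∀ a b : D, ⁅a, b⁆ ∈ center D) (hs : ∀ a : D, a * a ∈ center D)
    (hz : ∀ a ∈ center D, a * a = 1) : gam (Wr D) 3 ≤ H3 D := by
  rw [show gam (Wr D) 3 = ⁅gam (Wr D) 2, (⊤ : Subgroup (Wr D))⁆ from rfl, commutator_le]
  intro x hx y _
  obtain ⟨hxe, hx'⟩ := gam_two_le hc hs hx
  have hcm : ∀ (c : Bool) (u : D), u * x.f c = x.f c * u := fun c u => mem_center_iff.mp (hx' c) u
  have hi : ∀ c : Bool, (x.f c)⁻¹ = x.f c := fun c => inv_eq_of_mul_eq_one_left (hz _ (hx' c))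
  have hf : ∀ c : Bool, ⁅x, y⁆.f c = x.f c * x.f (xor c y.e) := by
    intro c
    rw [commutatorElement_def]
    simp only [mul_f, mul_e, inv_f, inv_e, hxe, Bool.xor_false, Bool.false_xor, hi]
    rw [mul_assoc (x.f c), mul_assoc (x.f c), hcm, mul_assoc (x.f (c ^^ y.e))]
    rw [Bool.xor_assoc, Bool.xor_self, Bool.xor_false, mul_inv_cancel, mul_one]
  refine ⟨?_, ?_, ?_⟩
  · rw [commutatorElement_def]
    simp only [mul_e, inv_e, hxe]
    cases y.e <;> rfl
  · rw [hf]
    exact mul_mem (hx' _) (hx' _)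
  · rw [hf, hf]
    cases y.e
    · simp only [Bool.xor_false]
      rw [hz _ (hx' _), hz _ (hx' _)]
    · simp only [Bool.xor_true, Bool.not_true, Bool.not_false]
      exact hcm _ _

lemma gam_four (hc : ∀ a b : D, ⁅a, b⁆ ∈ center D) (hs : ∀ a : D, a * a ∈ center D)
    (hz : ∀ a ∈ center D, a * a = 1) : gam (Wr D) 4 = ⊥ := by
  rw [eq_bot_iff, show gam (Wr D) 4 = ⁅gam (Wr D) 3, (⊤ : Subgroup (Wr D))⁆ from rfl, commutator_le]
  intro x hx y _
  obtain ⟨hxe, hx', hx''⟩ := gam_three_le hc hs hz hx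
  rw [mem_bot, commutatorElement_eq_one_iff_mul_comm]
  have h1 : ∀ c, x.f c = x.f false := by intro c; cases c; exacts [rfl, hx'']
  ext c
  · simp only [mul_e, hxe]
    cases y.e <;> rfl
  · simp only [mul_f, hxe, Bool.xor_false]
    rw [h1 c, h1 (c ^^ y.e)]
    exact (mem_center_iff.mp hx' _).symm

end Wr

end Pool.Agent.Work.MP_e99d20_al
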